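import Mathlib
import Pool.Agent.Y298.CA.Sup

/-!
# Slow curves of polynomials near a unicritical one: definitions and statements

The library `Pool.Agent.Y298.CA` treats curves of parameters of the family `z ^ d + c`. Here the same
is done for curves in the space of all polynomials of degree `d` near `z ^ d + c₁`: the polynomial
`z ^ d + ∑ a_i z ^ i` is represented by the vector `a` of its coefficients.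
-/

set_option autoImplicit false

open Set Filter Metric MeasureTheory

namespace Pool.Agent.Y272.GA

open Pool.Agent.TH279.MD Pool.Agent.Y298.SH Pool.Agent.Y298.SH.CD
open Pool.Agent.Y298.SH.CE (MG RR)
open Pool.Agent.W746.LD (Univ KC exists_KC)
open Pool.Agent.Y298.CA (VV BRc S_COV S_ME S_ONE S_BR S_RA S_RB S_NH S_PS)

/-- The polynomial `z ^ d + ∑ a_i z ^ i`. -/
def FF (d : ℕ) (a : Fin (d + 1) → ℂ) (z : ℂ) : ℂ := z ^ d + ∑ i : Fin (d + 1), a i * z ^ (i : ℕ)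

/-- The coefficients of the unicritical polynomial `z ^ d + c`. -/
def ee (d : ℕ) (c : ℂ) : Fin (d + 1) → ℂ := Pi.single 0 c

/-- A large constant. -/
def Kd (d : ℕ) : ℝ := ((d : ℝ) + 1) ^ 3 * 4 ^ d

/-- The iterates along a curve of polynomials: the `n`-th iterate of `w` under the polynomial with
the coefficients `γ w`. -/
def GG (d : ℕ) (γ : ℂ → Fin (d + 1) → ℂ) (n : ℕ) (w : ℂ) : ℂ := (FF d (γ w))^[n] w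

/-- Slow curves: holomorphic families of polynomials near `z ^ d + c₁` over the ball `ball u T`. -/
structure Cv (d : ℕ) (c₁ : ℂ) (r κ : ℝ) (u : ℂ) (T : ℝ) (γ : ℂ → Fin (d + 1) → ℂ) : Prop where
  hol : DifferentiableOn ℂ γ (ball u T)
  near : ∀ w ∈ ball u T, Kd d * ‖γ w - ee d c₁‖ ≤ r
  slow : ∀ w ∈ ball u T, Kd d * ‖deriv γ w‖ ≤ κ

/-- The points whose orbit (for the polynomial of the curve) stays in the closed ball of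
radius `2`. -/
def BB (d : ℕ) (γ : ℂ → Fin (d + 1) → ℂ) : Set ℂ := {w | ∀ n, ‖GG d γ n w‖ ≤ 2}

/-- The supremum of the areas over the slow curves. -/
noncomputable def SS (d : ℕ) (c₁ : ℂ) (r κ : ℝ) : ENNReal :=
  ⨆ (u : ℂ) (T : ℝ) (γ : ℂ → Fin (d + 1) → ℂ) (_ : 0 < T ∧ T ≤ 1 ∧ Cv d c₁ r κ u T γ),
    volume (BB d γ ∩ ball u (T / 2))

/-- The derivative of the `n`-th iterate of the frozen polynomial at `w`. -/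
noncomputable def DD (d : ℕ) (γ : ℂ → Fin (d + 1) → ℂ) (n : ℕ) (w : ℂ) : ℂ :=
  deriv ((FF d (γ w))^[n]) w

/-- The passage property near the critical value, with constants. -/
structure PC (d : ℕ) (C₁ lam θ B Ca : ℝ) : Prop where
  Ca1 : 1 ≤ Ca
  CaB : Ca ≤ B
  pass : ∀ c₁ : ℂ, CEp d C₁ lam c₁ → ∀ (a : Fin (d + 1) → ℂ) (s : ℝ) (k : ℕ), 0 < s →
    Kd d * ‖a - ee d c₁‖ ≤ s →
    (∀ j < k, B * θ ^ j * s * Pd d c₁ j ≤ ‖zz d c₁ j‖) → ∀ x ∈ ball c₁ (2 * s), ∀ j ≤ k,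
      ‖(FF d a)^[j] x - zz d c₁ j‖ ≤ Ca * s * Pd d c₁ j ∧
      2 / 3 * Pd d c₁ j ≤ ‖deriv ((FF d a)^[j]) x‖ ∧
      ‖deriv ((FF d a)^[j]) x‖ ≤ 2 * Pd d c₁ j ∧
      (j < k → ‖(FF d a)^[j] x - zz d c₁ j‖ ≤ 1 / 4 * ‖zz d c₁ j‖)
  far : ∀ c₁ : ℂ, CEp d C₁ lam c₁ → ∀ (s : ℝ) (k : ℕ), 0 < s →
    (∀ j < k, B * θ ^ j * s * Pd d c₁ j ≤ ‖zz d c₁ j‖) → ∀ j < k,
      4 * 2 ^ d * s ≤ ‖zz d c₁ j‖ ^ (d - 1)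

/-- Distortion of the iterates along a slow curve. -/
def S_PUSH : Prop := ∀ (d : ℕ) (c₁ : ℂ) (γ : ℂ → Fin (d + 1) → ℂ) (w : ℂ) (ρ κ r : ℝ) (m n : ℕ)
  (a b : ℕ → ℝ), 2 ≤ d → 0 < ρ → ‖c₁‖ ≤ 2 →
  DifferentiableOn ℂ γ (ball w ρ) → (∀ w' ∈ ball w ρ, Kd d * ‖deriv γ w'‖ ≤ κ) →
  (∀ w' ∈ ball w ρ, Kd d * ‖γ w' - ee d c₁‖ ≤ r) → r ≤ 1 → m ≤ n →
  (∀ w' ∈ ball w ρ, ‖deriv (GG d γ m) w' - DD d γ m w‖ ≤ 1 / 16 * ‖DD d γ m w‖) →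
  (∀ j, 0 ≤ a j) → (∀ j, 0 ≤ b j) →
  (∀ j, m ≤ j → j < n → ‖DD d γ j w‖ * ρ ≤ a j * ‖GG d γ j w‖) →
  (∀ j, m ≤ j → j < n → κ ≤ b j * ‖DD d γ (j + 1) w‖) →
  (∀ j, m ≤ j → j < n → 4 * r ≤ ‖GG d γ j w‖ ^ (d - 1)) →
  (∀ j, m ≤ j → j < n → ‖GG d γ j w‖ ≤ 3) →
  ∑ j ∈ Finset.Ico m n, (16 * d * a j + 4 * b j) ≤ 1 / 8 →
  ∀ w' ∈ ball w ρ, ‖deriv (GG d γ n) w' - DD d γ n w‖ ≤ 1 / 4 * ‖DD d γ n w‖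

/-- Transfer of the area by a map with small distortion. -/
def S_TR : Prop := ∀ (d : ℕ) (c₁ : ℂ) (r κ κ₀ : ℝ) (γ : ℂ → Fin (d + 1) → ℂ) (w : ℂ) (ρ : ℝ)
  (n : ℕ) (D : ℂ),
  2 ≤ d → 0 < ρ → DifferentiableOn ℂ γ (ball w ρ) →
  (∀ w' ∈ ball w ρ, Kd d * ‖γ w' - ee d c₁‖ ≤ r) →
  (∀ w' ∈ ball w ρ, Kd d * ‖deriv γ w'‖ ≤ κ₀) → κ₀ ≤ 3 / 4 * (κ * ‖D‖) → D ≠ 0 → ‖D‖ * ρ ≤ 5 →
  (∀ w' ∈ ball w ρ, ‖deriv (GG d γ n) w' - D‖ ≤ 1 / 4 * ‖D‖) →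
  volume (BB d γ ∩ closedBall w (ρ / 16)) ≤ ENNReal.ofReal (2 / ‖D‖ ^ 2) * SS d c₁ r κ

/-- Perturbation of finitely many iterates. -/
def S_PE : Prop := ∀ (d N : ℕ), 2 ≤ d → ∃ C : ℝ, 0 < C ∧ ∀ (c₁ : ℂ) (r κ : ℝ) (u : ℂ) (T : ℝ)
  (γ : ℂ → Fin (d + 1) → ℂ), ‖c₁‖ ≤ 2 → 0 ≤ r → r ≤ 1 → Cv d c₁ r κ u T γ → ∀ n ≤ N,
    ∀ w ∈ ball u T, ‖w‖ ≤ 4 →
    ‖GG d γ n w - (f d c₁)^[n] w‖ ≤ C * r ∧
    ‖deriv (GG d γ n) w - deriv ((f d c₁)^[n]) w‖ ≤ C * (r + κ) ∧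
    ‖DD d γ n w - deriv ((f d c₁)^[n]) w‖ ≤ C * r

/-- The passage near the critical value. -/
def S_PA : Prop := ∀ (d : ℕ) (C₁ lam θ : ℝ), 2 ≤ d → 1 ≤ C₁ → 1 < lam → 1 < θ →
  ∃ B Ca : ℝ, PC d C₁ lam θ B Ca

/-- The conclusion of the passage lemma for one center. -/
def BIc (d : ℕ) (θ B ε : ℝ) (c₁ : ℂ) : Prop :=
  ∀ (s ρ κ r : ℝ) (k n : ℕ) (γ : ℂ → Fin (d + 1) → ℂ) (w : ℂ), 0 < s → s ≤ 1 → 0 < ρ →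
  (∀ j < k, B * θ ^ j * s * Pd d c₁ j ≤ ‖zz d c₁ j‖) →
  DifferentiableOn ℂ γ (ball w ρ) → (∀ w' ∈ ball w ρ, Kd d * ‖deriv γ w'‖ ≤ κ) →
  (∀ w' ∈ ball w ρ, Kd d * ‖γ w' - ee d c₁‖ ≤ r) → 0 ≤ r → r ≤ s →
  r ≤ ε * ‖GG d γ n w‖ ^ (d - 1) →
  ‖GG d γ n w‖ ^ d < s → GG d γ n w ≠ 0 → DD d γ n w ≠ 0 →
  (∀ w' ∈ ball w ρ, ‖deriv (GG d γ n) w' - DD d γ n w‖ ≤ 1 / 16 * ‖DD d γ n w‖) →
  ‖DD d γ n w‖ * ρ ≤ ε * ‖GG d γ n w‖ →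
  κ ≤ ε * (‖GG d γ n w‖ ^ (d - 1) * ‖DD d γ n w‖) →
  (∀ w' ∈ ball w ρ, ‖deriv (GG d γ (n + 1 + k)) w' - DD d γ (n + 1 + k) w‖ ≤
    1 / 4 * ‖DD d γ (n + 1 + k) w‖) ∧
  ‖DD d γ n w‖ * (‖GG d γ n w‖ ^ (d - 1) * Pd d c₁ k) ≤ ‖DD d γ (n + 1 + k) w‖ ∧
  ‖DD d γ (n + 1 + k) w‖ * ρ ≤ 5

/-- The passage near the critical point along a slow curve. -/
def S_BI : Prop := ∀ (d : ℕ) (C₁ lam θ B Ca : ℝ), 2 ≤ d → 1 ≤ C₁ → 1 < lam → 1 < θ →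
  PC d C₁ lam θ B Ca → ∃ ε : ℝ, 0 < ε ∧ ε ≤ 1 ∧ ∀ c₁ : ℂ, CEp d C₁ lam c₁ → BIc d θ B ε c₁

end Pool.Agent.Y272.GA
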