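import Mathlib
import Pool.Agent.Y272.GA.Stm

/-!
# Slow curves of polynomials: basic lemmas
-/

set_option autoImplicit false

open Set Filter Metric MeasureTheory

namespace Pool.Agent.Y272.GA

open Pool.Agent.TH279.MD Pool.Agent.Y298.SH Pool.Agent.Y298.SH.CD

/-- The derivative of `FF d a`. -/
def dF (d : ℕ) (a : Fin (d + 1) → ℂ) (z : ℂ) : ℂ :=
  d * z ^ (d - 1) + ∑ i : Fin (d + 1), a i * (((i : ℕ) : ℂ) * z ^ ((i : ℕ) - 1))

variable {d : ℕ}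

theorem one_le_Kd (d : ℕ) : 1 ≤ Kd d := by
  unfold Kd
  have h1 : (1 : ℝ) ≤ ((d : ℝ) + 1) ^ 3 := one_le_pow₀ (by linarith [Nat.cast_nonneg (α := ℝ) d])
  have h2 : (1 : ℝ) ≤ 4 ^ d := one_le_pow₀ (by norm_num)
  exact one_le_mul_of_one_le_of_one_le h1 h2

theorem Kd_pos (d : ℕ) : 0 < Kd d := by linarith [one_le_Kd d]

theorem f_apply (d : ℕ) (c z : ℂ) : f d c z = z ^ d + c := rfl

theorem ee_zero (d : ℕ) (c : ℂ) : ee d c 0 = c := by simp [ee]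

theorem ee_ne (d : ℕ) (c : ℂ) {i : Fin (d + 1)} (h : i ≠ 0) : ee d c i = 0 := by
  simp [ee, h]

theorem sum_ee (d : ℕ) (c : ℂ) (g : Fin (d + 1) → ℂ) :
    ∑ i : Fin (d + 1), ee d c i * g i = c * g 0 := by
  rw [Finset.sum_eq_single 0]
  · rw [ee_zero]
  · intro i _ hi
    rw [ee_ne d c hi, zero_mul]
  · intro h
    exact absurd (Finset.mem_univ _) h

theorem FF_ee (d : ℕ) (c z : ℂ) : FF d (ee d c) z = f d c z := by
  unfold FF
  rw [sum_ee d c fun i => z ^ (i : ℕ), f_apply]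
  simp

theorem FF_ee' (d : ℕ) (c : ℂ) : FF d (ee d c) = f d c := funext (FF_ee d c)

theorem dF_ee (d : ℕ) (c z : ℂ) : dF d (ee d c) z = d * z ^ (d - 1) := by
  unfold dF
  rw [sum_ee d c fun i => ((i : ℕ) : ℂ) * z ^ ((i : ℕ) - 1)]
  simp

theorem hasDerivAt_FF (a : Fin (d + 1) → ℂ) (z : ℂ) : HasDerivAt (FF d a) (dF d a z) z := by
  unfold FF dF
  refine (hasDerivAt_pow d z).add ?_
  refine HasDerivAt.fun_sum fun i _ => ?_
  exact (hasDerivAt_pow (i : ℕ) z).const_mul (a i)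

theorem deriv_FF (a : Fin (d + 1) → ℂ) (z : ℂ) : deriv (FF d a) z = dF d a z :=
  (hasDerivAt_FF a z).deriv

theorem differentiable_FF (a : Fin (d + 1) → ℂ) : Differentiable ℂ (FF d a) := fun z =>
  (hasDerivAt_FF a z).differentiableAt

theorem differentiable_FFn (a : Fin (d + 1) → ℂ) (n : ℕ) : Differentiable ℂ ((FF d a)^[n]) := by
  induction n with
  | zero => exact differentiable_id
  | succ n ih =>
    rw [Function.iterate_succ']
    exact (differentiable_FF a).comp ih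

theorem deriv_FFn_succ (a : Fin (d + 1) → ℂ) (n : ℕ) (z : ℂ) :
    deriv ((FF d a)^[n + 1]) z = dF d a ((FF d a)^[n] z) * deriv ((FF d a)^[n]) z := by
  rw [Function.iterate_succ']
  exact ((hasDerivAt_FF a _).comp z (differentiable_FFn a n z).hasDerivAt).deriv

theorem deriv_FFn_add (a : Fin (d + 1) → ℂ) (m n : ℕ) (z : ℂ) :
    deriv ((FF d a)^[m + n]) z = deriv ((FF d a)^[m]) ((FF d a)^[n] z) * deriv ((FF d a)^[n]) z := by
  rw [Function.iterate_add]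
  exact ((differentiable_FFn a m _).hasDerivAt.comp z (differentiable_FFn a n z).hasDerivAt).deriv

/-- a general bound of sums of `d + 1` terms -/
theorem norm_sum_le_Kd {v g : Fin (d + 1) → ℂ} {C : ℝ} (hC : 0 ≤ C)
    (hg : ∀ i, ‖g i‖ ≤ ((d : ℝ) + 1) ^ 2 * 4 ^ d * C) :
    ‖∑ i, v i * g i‖ ≤ Kd d * ‖v‖ * C := by
  calc ‖∑ i, v i * g i‖ ≤ ∑ i : Fin (d + 1), ‖v i * g i‖ := norm_sum_le _ _
    _ ≤ ∑ _i : Fin (d + 1), ‖v‖ * (((d : ℝ) + 1) ^ 2 * 4 ^ d * C) := by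
        refine Finset.sum_le_sum fun i _ => ?_
        rw [norm_mul]
        exact mul_le_mul (norm_le_pi_norm v i) (hg i) (norm_nonneg _) (norm_nonneg _)
    _ = Kd d * ‖v‖ * C := by
        rw [Finset.sum_const, Finset.card_univ, Fintype.card_fin, nsmul_eq_mul]
        unfold Kd
        push_cast
        ring

theorem pow_le_four {z : ℂ} (hz : ‖z‖ ≤ 4) {m : ℕ} (hm : m ≤ d) : ‖z‖ ^ m ≤ 4 ^ d :=
  (pow_le_pow_left₀ (norm_nonneg z) hz m).trans (pow_le_pow_right₀ (by norm_num) hm)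

theorem norm_pows_le (v : Fin (d + 1) → ℂ) {z : ℂ} (hz : ‖z‖ ≤ 4) :
    ‖∑ i : Fin (d + 1), v i * z ^ (i : ℕ)‖ ≤ Kd d * ‖v‖ := by
  have h := norm_sum_le_Kd (v := v) (g := fun i => z ^ (i : ℕ)) (C := 1) zero_le_one (by
    intro i
    rw [norm_pow, mul_one]
    have h1 := pow_le_four (d := d) hz (m := (i : ℕ)) (by omega)
    have h2 : (1 : ℝ) ≤ ((d : ℝ) + 1) ^ 2 :=
      one_le_pow₀ (by linarith [Nat.cast_nonneg (α := ℝ) d])
    exact h1.trans (le_mul_of_one_le_left (by positivity) h2))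
  simpa using h

theorem norm_dpows_le (v : Fin (d + 1) → ℂ) {z : ℂ} (hz : ‖z‖ ≤ 4) :
    ‖∑ i : Fin (d + 1), v i * (((i : ℕ) : ℂ) * z ^ ((i : ℕ) - 1))‖ ≤ Kd d * ‖v‖ := by
  have h := norm_sum_le_Kd (v := v) (g := fun i => ((i : ℕ) : ℂ) * z ^ ((i : ℕ) - 1)) (C := 1)
    zero_le_one (by
    intro i
    have hi := i.isLt
    rw [norm_mul, norm_pow, mul_one, Complex.norm_natCast]
    have h1 := pow_le_four (d := d) hz (m := (i : ℕ) - 1) (by omega)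
    have h3 : (((i : ℕ) : ℝ)) ≤ (d : ℝ) + 1 := by exact_mod_cast hi.le
    have h4 : (1 : ℝ) ≤ (d : ℝ) + 1 := by linarith [Nat.cast_nonneg (α := ℝ) d]
    have h2 : (((i : ℕ) : ℝ)) ≤ ((d : ℝ) + 1) ^ 2 := by nlinarith
    exact mul_le_mul h2 h1 (by positivity) (by positivity))
  simpa using h

theorem norm_powm_sub {z z' : ℂ} (hz : ‖z‖ ≤ 4) (hz' : ‖z'‖ ≤ 4) {m : ℕ} (hm : m ≤ d) :
    ‖z ^ m - z' ^ m‖ ≤ ((d : ℝ) + 1) * 4 ^ d * ‖z - z'‖ := by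
  have hconv : Convex ℝ (closedBall (0 : ℂ) 4) := convex_closedBall _ _
  have h := hconv.norm_image_sub_le_of_norm_hasDerivWithin_le
    (f := fun w : ℂ => w ^ m) (f' := fun w => (m : ℂ) * w ^ (m - 1))
    (C := ((d : ℝ) + 1) * 4 ^ d) (x := z') (y := z)
    (fun w _ => (hasDerivAt_pow m w).hasDerivWithinAt) (by
      intro w hw
      rw [mem_closedBall_zero_iff] at hw
      rw [norm_mul, norm_pow, Complex.norm_natCast]
      have h1 := pow_le_four (d := d) hw (m := m - 1) (by omega)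
      have h3 : (m : ℝ) ≤ (d : ℝ) + 1 := by
        have : m ≤ d + 1 := by omega
        exact_mod_cast this
      exact mul_le_mul h3 h1 (by positivity) (by positivity))
    (by rwa [mem_closedBall_zero_iff]) (by rwa [mem_closedBall_zero_iff])
  exact h

theorem FF_sub_FF (a b : Fin (d + 1) → ℂ) (z : ℂ) :
    FF d a z - FF d b z = ∑ i : Fin (d + 1), (a - b) i * z ^ (i : ℕ) := by
  unfold FF
  simp only [Pi.sub_apply, sub_mul, Finset.sum_sub_distrib]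
  ring

theorem dF_sub_dF (a b : Fin (d + 1) → ℂ) (z : ℂ) :
    dF d a z - dF d b z = ∑ i : Fin (d + 1), (a - b) i * (((i : ℕ) : ℂ) * z ^ ((i : ℕ) - 1)) := by
  unfold dF
  simp only [Pi.sub_apply, sub_mul, Finset.sum_sub_distrib]
  ring

theorem norm_FF_sub (a b : Fin (d + 1) → ℂ) {z : ℂ} (hz : ‖z‖ ≤ 4) :
    ‖FF d a z - FF d b z‖ ≤ Kd d * ‖a - b‖ := by
  rw [FF_sub_FF]
  exact norm_pows_le _ hz

theorem norm_FF_sub_f (a : Fin (d + 1) → ℂ) (c : ℂ) {z : ℂ} (hz : ‖z‖ ≤ 4) :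
    ‖FF d a z - f d c z‖ ≤ Kd d * ‖a - ee d c‖ := by
  rw [← FF_ee]
  exact norm_FF_sub _ _ hz

theorem norm_dF_sub (a b : Fin (d + 1) → ℂ) {z : ℂ} (hz : ‖z‖ ≤ 4) :
    ‖dF d a z - dF d b z‖ ≤ Kd d * ‖a - b‖ := by
  rw [dF_sub_dF]
  exact norm_dpows_le _ hz

theorem norm_dF_sub_pow (a : Fin (d + 1) → ℂ) (c : ℂ) {z : ℂ} (hz : ‖z‖ ≤ 4) :
    ‖dF d a z - d * z ^ (d - 1)‖ ≤ Kd d * ‖a - ee d c‖ := by
  rw [← dF_ee d c]
  exact norm_dF_sub _ _ hz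

/-- Lipschitz bound of the perturbation part of the derivative. -/
theorem norm_dF_lip (a : Fin (d + 1) → ℂ) (c : ℂ) {z z' : ℂ} (hz : ‖z‖ ≤ 4) (hz' : ‖z'‖ ≤ 4) :
    ‖(dF d a z - d * z ^ (d - 1)) - (dF d a z' - d * z' ^ (d - 1))‖ ≤
      Kd d * ‖a - ee d c‖ * ‖z - z'‖ := by
  have h0 : (dF d a z - d * z ^ (d - 1)) - (dF d a z' - d * z' ^ (d - 1)) =
      ∑ i : Fin (d + 1), (a - ee d c) i *
        (((i : ℕ) : ℂ) * (z ^ ((i : ℕ) - 1) - z' ^ ((i : ℕ) - 1))) := by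
    rw [← dF_ee d c z, ← dF_ee d c z', dF_sub_dF, dF_sub_dF, ← Finset.sum_sub_distrib]
    refine Finset.sum_congr rfl fun i _ => ?_
    ring
  rw [h0]
  refine norm_sum_le_Kd (norm_nonneg _) ?_
  intro i
  have hi := i.isLt
  rw [norm_mul, Complex.norm_natCast]
  have h1 := norm_powm_sub (d := d) hz hz' (m := (i : ℕ) - 1) (by omega)
  have h3 : (((i : ℕ) : ℝ)) ≤ (d : ℝ) + 1 := by exact_mod_cast hi.le
  calc ((i : ℕ) : ℝ) * ‖z ^ ((i : ℕ) - 1) - z' ^ ((i : ℕ) - 1)‖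
      ≤ ((d : ℝ) + 1) * (((d : ℝ) + 1) * 4 ^ d * ‖z - z'‖) := by gcongr
    _ = _ := by ring

theorem GG_zero (γ : ℂ → Fin (d + 1) → ℂ) (w : ℂ) : GG d γ 0 w = w := rfl

theorem GG_succ (γ : ℂ → Fin (d + 1) → ℂ) (n : ℕ) (w : ℂ) :
    GG d γ (n + 1) w = FF d (γ w) (GG d γ n w) := by
  unfold GG
  rw [Function.iterate_succ_apply']

theorem GG_add (γ : ℂ → Fin (d + 1) → ℂ) (m n : ℕ) (w : ℂ) :
    GG d γ (m + n) w = (FF d (γ w))^[m] (GG d γ n w) := by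
  unfold GG
  rw [Function.iterate_add_apply]

theorem DD_zero (γ : ℂ → Fin (d + 1) → ℂ) (w : ℂ) : DD d γ 0 w = 1 := by
  unfold DD
  rw [Function.iterate_zero, deriv_id]

theorem DD_succ (γ : ℂ → Fin (d + 1) → ℂ) (n : ℕ) (w : ℂ) :
    DD d γ (n + 1) w = dF d (γ w) (GG d γ n w) * DD d γ n w := by
  unfold DD GG
  exact deriv_FFn_succ _ _ _

theorem DD_add (γ : ℂ → Fin (d + 1) → ℂ) (m n : ℕ) (w : ℂ) :
    DD d γ (m + n) w = deriv ((FF d (γ w))^[m]) (GG d γ n w) * DD d γ n w := by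
  unfold DD GG
  exact deriv_FFn_add _ _ _ _

/-- The derivative of the iterates along a curve. -/
theorem hasDerivAt_GG_succ {γ : ℂ → Fin (d + 1) → ℂ} {γ' : Fin (d + 1) → ℂ} {w g : ℂ} {n : ℕ}
    (hγ : HasDerivAt γ γ' w) (hg : HasDerivAt (GG d γ n) g w) :
    HasDerivAt (GG d γ (n + 1))
      (dF d (γ w) (GG d γ n w) * g + ∑ i : Fin (d + 1), γ' i * (GG d γ n w) ^ (i : ℕ)) w := by
  have h0 : GG d γ (n + 1) = fun w => (GG d γ n w) ^ d +
      ∑ i : Fin (d + 1), γ w i * (GG d γ n w) ^ (i : ℕ) := by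
    funext w
    rw [GG_succ]
    rfl
  rw [h0]
  have hγi : ∀ i, HasDerivAt (fun w => γ w i) (γ' i) w := fun i => (hasDerivAt_pi.mp hγ) i
  have h1 : HasDerivAt (fun w => (GG d γ n w) ^ d) (d * (GG d γ n w) ^ (d - 1) * g) w := hg.pow d
  have h2 : HasDerivAt (fun w => ∑ i : Fin (d + 1), γ w i * (GG d γ n w) ^ (i : ℕ))
      (∑ i : Fin (d + 1), (γ' i * (GG d γ n w) ^ (i : ℕ) +
        γ w i * (((i : ℕ) : ℂ) * (GG d γ n w) ^ ((i : ℕ) - 1) * g))) w := by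
    refine HasDerivAt.fun_sum fun i _ => ?_
    exact (hγi i).mul (hg.pow (i : ℕ))
  refine (h1.add h2).congr_deriv ?_
  unfold dF
  rw [Finset.sum_add_distrib, add_mul, Finset.sum_mul]
  have h3 : ∑ i : Fin (d + 1), γ w i * (((i : ℕ) : ℂ) * (GG d γ n w) ^ ((i : ℕ) - 1) * g) =
      ∑ i : Fin (d + 1), γ w i * (((i : ℕ) : ℂ) * (GG d γ n w) ^ ((i : ℕ) - 1)) * g :=
    Finset.sum_congr rfl fun i _ => by ring
  rw [h3]
  ring

theorem differentiableAt_GG {γ : ℂ → Fin (d + 1) → ℂ} {w : ℂ} (hγ : DifferentiableAt ℂ γ w)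
    (n : ℕ) : DifferentiableAt ℂ (GG d γ n) w := by
  induction n with
  | zero => exact differentiableAt_id
  | succ n ih => exact (hasDerivAt_GG_succ hγ.hasDerivAt ih.hasDerivAt).differentiableAt

theorem deriv_GG_succ {γ : ℂ → Fin (d + 1) → ℂ} {w : ℂ} (hγ : DifferentiableAt ℂ γ w) (n : ℕ) :
    deriv (GG d γ (n + 1)) w = dF d (γ w) (GG d γ n w) * deriv (GG d γ n) w +
      ∑ i : Fin (d + 1), deriv γ w i * (GG d γ n w) ^ (i : ℕ) :=
  (hasDerivAt_GG_succ hγ.hasDerivAt (differentiableAt_GG hγ n).hasDerivAt).deriv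

theorem differentiableOn_GG {γ : ℂ → Fin (d + 1) → ℂ} {U : Set ℂ} (hU : IsOpen U)
    (hγ : DifferentiableOn ℂ γ U) (n : ℕ) : DifferentiableOn ℂ (GG d γ n) U := fun w hw =>
  (differentiableAt_GG (hγ.differentiableAt (hU.mem_nhds hw)) n).differentiableWithinAt

end Pool.Agent.Y272.GA
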