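import Mathlib
import Pool.Agent.Y272.GA.Bas

/-!
# Slow curves: the context of constants, and basic facts on the supremum
-/

set_option autoImplicit false

open Set Filter Metric MeasureTheory

namespace Pool.Agent.Y272.GA

open Pool.Agent.TH279.MD Pool.Agent.Y298.SH Pool.Agent.Y298.SH.CD
open Pool.Agent.Y298.SH.CE (MG RR)
open Pool.Agent.W746.LD (Univ KC exists_KC)
open Pool.Agent.Y298.CA (VV BRc)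

variable {d : ℕ} {c₁ : ℂ}

theorem le_SS {r κ : ℝ} {u : ℂ} {T : ℝ} {γ : ℂ → Fin (d + 1) → ℂ} (hT : 0 < T) (hT1 : T ≤ 1)
    (h : Cv d c₁ r κ u T γ) : volume (BB d γ ∩ ball u (T / 2)) ≤ SS d c₁ r κ := by
  unfold SS
  refine le_iSup_of_le u (le_iSup_of_le T (le_iSup_of_le γ ?_))
  exact le_iSup (fun _ : 0 < T ∧ T ≤ 1 ∧ Cv d c₁ r κ u T γ => volume (BB d γ ∩ ball u (T / 2)))
    ⟨hT, hT1, h⟩

theorem SS_le (d : ℕ) (c₁ : ℂ) (r κ : ℝ) : SS d c₁ r κ ≤ 1 := by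
  unfold SS
  refine iSup_le fun u => iSup_le fun T => iSup_le fun γ => iSup_le fun h => ?_
  obtain ⟨hT, hT1, -⟩ := h
  refine (measure_mono inter_subset_right).trans ?_
  rw [Complex.volume_ball]
  have h1 : ENNReal.ofReal (T / 2) ^ 2 ≤ ENNReal.ofReal (1 / 4) := by
    rw [← ENNReal.ofReal_pow (by positivity)]
    apply ENNReal.ofReal_le_ofReal
    nlinarith
  have h2 : ((NNReal.pi : NNReal) : ENNReal) ≤ ENNReal.ofReal 4 := by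
    rw [← ENNReal.ofReal_coe_nnreal, NNReal.coe_real_pi]
    exact ENNReal.ofReal_le_ofReal Real.pi_le_four
  calc ENNReal.ofReal (T / 2) ^ 2 * (NNReal.pi : NNReal) ≤
        ENNReal.ofReal (1 / 4) * ENNReal.ofReal 4 := by gcongr
    _ = 1 := by
        rw [← ENNReal.ofReal_mul (by norm_num)]
        norm_num

/-- the real number -/
noncomputable def sS (d : ℕ) (c₁ : ℂ) (r κ : ℝ) : ℝ := (SS d c₁ r κ).toReal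

theorem SS_ne (d : ℕ) (c₁ : ℂ) (r κ : ℝ) : SS d c₁ r κ ≠ ⊤ :=
  ne_top_of_le_ne_top ENNReal.one_ne_top (SS_le d c₁ r κ)

theorem sS_nonneg (d : ℕ) (c₁ : ℂ) (r κ : ℝ) : 0 ≤ sS d c₁ r κ := ENNReal.toReal_nonneg

theorem ofReal_sS (d : ℕ) (c₁ : ℂ) (r κ : ℝ) : ENNReal.ofReal (sS d c₁ r κ) = SS d c₁ r κ :=
  ENNReal.ofReal_toReal (SS_ne d c₁ r κ)

theorem sS_le (d : ℕ) (c₁ : ℂ) (r κ : ℝ) : sS d c₁ r κ ≤ 1 := by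
  unfold sS
  exact ENNReal.toReal_le_of_le_ofReal zero_le_one (by
    rw [ENNReal.ofReal_one]; exact SS_le d c₁ r κ)

/-- The context: constants and their properties. -/
structure Ctx (d : ℕ) (θ B ε K₁ δ Γ A' CN Rd : ℝ) (N : ℕ) (c₁ : ℂ) : Prop where
  hd : 2 ≤ d
  hc : ‖c₁‖ ≤ 2
  δ0 : 0 < δ
  Γ1 : 1 ≤ Γ
  A1 : 1 ≤ A'
  CN0 : 0 < CN
  Rd0 : 0 < Rd
  K1 : 1 ≤ K₁
  ε0 : 0 < ε
  ε1 : ε ≤ 1
  bi : BIc d θ B ε c₁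
  br1 : ∀ (n : ℕ) (y : ℂ), y ∈ VV d δ c₁ n → ‖(f d c₁)^[n] y‖ ≤ 3 * δ → BRc K₁ (δ / 2) d c₁ n y
  br2 : ∀ (n : ℕ) (y : ℂ), y ∈ VV d δ c₁ n → BRc K₁ Rd d c₁ n y
  h1 : ∀ y : ℂ, ‖y‖ ≤ 3 * δ → ∑ j ∈ Finset.range (N + 1), psi d δ c₁ j y ≤ Γ
  h2 : ∀ n ≤ N, ∀ w : ℂ, ‖w‖ ≤ 4 → psi d δ c₁ n w ≤ A'
  pe : ∀ (r κ : ℝ) (u : ℂ) (T : ℝ) (γ : ℂ → Fin (d + 1) → ℂ), 0 ≤ r → r ≤ 1 → Cv d c₁ r κ u T γ → ∀ n ≤ N,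
    ∀ w ∈ ball u T, ‖w‖ ≤ 4 → ‖GG d γ n w - (f d c₁)^[n] w‖ ≤ CN * r ∧
    ‖deriv (GG d γ n) w - deriv ((f d c₁)^[n]) w‖ ≤ CN * (r + κ) ∧
    ‖DD d γ n w - deriv ((f d c₁)^[n]) w‖ ≤ CN * r
  one : ∀ (n : ℕ) (y : ℂ), y ∈ VV d δ c₁ n →
    1 ≤ psi d δ c₁ n ((f d c₁)^[n] y) * ‖deriv ((f d c₁)^[n]) y‖ ^ 2

variable {θ B ε K₁ δ Γ A' CN Rd : ℝ} {N : ℕ}

end Pool.Agent.Y272.GA
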