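import Mathlib
import Pool.Agent.Y272.GA.Geo
import Pool.Agent.Y298.CA.Mea

/-!
# Slow curves: the areas of the three kinds of points
-/

set_option autoImplicit false

open Set Filter Metric MeasureTheory

namespace Pool.Agent.Y272.GA

open Pool.Agent.TH279.MD Pool.Agent.Y298.SH Pool.Agent.Y298.SH.CD
open Pool.Agent.Y298.SH.CE (MG RR)
open Pool.Agent.W746.LD (Univ KC exists_KC)
open Pool.Agent.Y298.CA (VV BRc S_COV S_ME vol_cb' vol_b' isClosed_VV dens const_le_int inv_min_sq)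

variable {d : ℕ} {c₁ : ℂ} {θ B ε K₁ δ Γ A' CN Rd : ℝ} {N : ℕ}

/-- the sum over the times -/
theorem Ctx.sum_meas (X : Ctx d θ B ε K₁ δ Γ A' CN Rd N c₁) (hme : S_ME) {β : ℂ → ENNReal}
    (hβ : Measurable β) (h0 : ∀ z, z ∉ closedBall (0 : ℂ) (3 * δ) → β z = 0) :
    ∑ n ∈ Finset.range N, ∫⁻ y in VV d δ c₁ n, β ((f d c₁)^[n] y) ≤
      ENNReal.ofReal Γ * ∫⁻ z, β z := by
  have hδ := X.δ0
  calc ∑ n ∈ Finset.range N, ∫⁻ y in VV d δ c₁ n, β ((f d c₁)^[n] y)
      ≤ ∑ n ∈ Finset.range N, ∫⁻ z, β z * ENNReal.ofReal (psi d δ c₁ n z) :=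
        Finset.sum_le_sum fun n _ => hme d δ c₁ n β X.hd hδ hβ
    _ = ∫⁻ z, ∑ n ∈ Finset.range N, β z * ENNReal.ofReal (psi d δ c₁ n z) := by
        rw [lintegral_finsetSum]
        intro n _
        exact hβ.mul (ENNReal.measurable_ofReal.comp
          (continuous_psi_right X.hd hδ c₁ n).measurable)
    _ ≤ ∫⁻ z, ENNReal.ofReal Γ * β z := by
        apply lintegral_mono
        intro z
        beta_reduce
        rw [← Finset.mul_sum, mul_comm]
        by_cases hz : z ∈ closedBall (0 : ℂ) (3 * δ)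
        · gcongr
          rw [← ENNReal.ofReal_sum_of_nonneg (fun n _ => psi_nonneg hδ c₁ n z)]
          apply ENNReal.ofReal_le_ofReal
          rw [mem_closedBall_zero_iff] at hz
          refine le_trans ?_ (X.h1 z hz)
          apply Finset.sum_le_sum_of_subset_of_nonneg
          · intro i hi
            rw [Finset.mem_range] at *
            omega
          · intro i _ _
            exact psi_nonneg hδ c₁ i z
        · rw [h0 z hz, mul_zero, mul_zero]
    _ = _ := lintegral_const_mul _ hβ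

/-- the points without entrance -/
def EA (d : ℕ) (δ : ℝ) (N : ℕ) (γ : ℂ → Fin (d + 1) → ℂ) (u : ℂ) (T : ℝ) : Set ℂ :=
  {w | w ∈ BB d γ ∩ ball u (T / 2) ∧ ∀ j < N, 5 / 2 * δ ≤ ‖GG d γ j w‖}

/-- the points with an entrance -/
def EN (d : ℕ) (δ : ℝ) (γ : ℂ → Fin (d + 1) → ℂ) (u : ℂ) (T : ℝ) (n : ℕ) (w : ℂ) : Prop :=
  w ∈ BB d γ ∩ ball u (T / 2) ∧ (∀ j < n, 5 / 2 * δ ≤ ‖GG d γ j w‖) ∧
    ‖GG d γ n w‖ < 5 / 2 * δ

theorem split_E (d : ℕ) (δ : ℝ) (N : ℕ) (γ : ℂ → Fin (d + 1) → ℂ) (u : ℂ) (T Y : ℝ) :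
    BB d γ ∩ ball u (T / 2) ⊆ EA d δ N γ u T ∪
      ({w | ∃ n < N, EN d δ γ u T n w ∧ ‖GG d γ n w‖ ^ (d - 1) < Y} ∪
        {w | ∃ n < N, EN d δ γ u T n w ∧ Y ≤ ‖GG d γ n w‖ ^ (d - 1)}) := by
  classical
  intro w hw
  by_cases h : ∀ j < N, 5 / 2 * δ ≤ ‖GG d γ j w‖
  · exact Or.inl ⟨hw, h⟩
  · right
    push Not at h
    have hex : ∃ j, j < N ∧ ‖GG d γ j w‖ < 5 / 2 * δ := h
    obtain ⟨h1, h2⟩ := Nat.find_spec hex
    have h3 : ∀ j < Nat.find hex, 5 / 2 * δ ≤ ‖GG d γ j w‖ := by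
      intro j hj
      by_contra hcon
      exact Nat.find_min hex hj ⟨by omega, not_le.mp hcon⟩
    rcases lt_or_ge (‖GG d γ (Nat.find hex) w‖ ^ (d - 1)) Y with h4 | h4
    · exact Or.inl ⟨_, h1, ⟨hw, h3, h2⟩, h4⟩
    · exact Or.inr ⟨_, h1, ⟨hw, h3, h2⟩, h4⟩

/-- bound of the points in the disk -/
theorem disk4 {γ : ℂ → Fin (d + 1) → ℂ} {u : ℂ} {T : ℝ} (hT : 0 < T) (hT1 : T ≤ 1) {w : ℂ}
    (hw : w ∈ BB d γ ∩ ball u (T / 2)) : ∀ w' ∈ ball u T, ‖w'‖ ≤ 4 := by
  intro w' hw'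
  have h1 : ‖w‖ ≤ 2 := hw.1 0
  have h2 := hw.2
  rw [mem_ball, dist_eq_norm] at h2 hw'
  have h3 : ‖u‖ ≤ ‖w‖ + ‖w - u‖ := by
    calc ‖u‖ = ‖w - (w - u)‖ := by congr 1; ring
      _ ≤ _ := norm_sub_le _ _
  have h4 : ‖w'‖ ≤ ‖w' - u‖ + ‖u‖ := by
    calc ‖w'‖ = ‖(w' - u) + u‖ := by congr 1; ring
      _ ≤ _ := norm_add_le _ _
  linarith

/-- **The points without entrance.** -/
theorem Ctx.volA (X : Ctx d θ B ε K₁ δ Γ A' CN Rd N c₁) (hcov : S_COV) (htr : S_TR) (hme : S_ME)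
    {r κ : ℝ} {u : ℂ} {T : ℝ} {γ : ℂ → Fin (d + 1) → ℂ}
    (hr0 : 0 ≤ r) (hr1 : r ≤ 1) (hκ0 : 0 ≤ κ) (hT : 0 < T) (hT1 : T ≤ 1) (hCv : Cv d c₁ r κ u T γ)
    (hr2 : CN * r ≤ δ / 8) (hr3 : CN * r ≤ 1)
    (hrκ : CN * (r + κ) * √A' * 100 ≤ 1) {ε' : ℝ} (hε'0 : 0 < ε') (hε' : ε' ≤ 1 / 16)
    (hpsi : ∀ w : ℂ, ‖w‖ ≤ 4 → psi d δ c₁ N w ≤ ε') {Ra : ℝ} (hRa0 : 0 < Ra)
    (hRa1 : 2 * K₁ * Ra ≤ Rd)
    (hRa2 : K₁ * √A' * Ra ≤ 5 * δ) (hRa3 : K₁ * Ra ≤ 1) :
    volume (EA d δ N γ u T) ≤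
      ENNReal.ofReal (2 ^ 18 * ε' * (1 + 1 / Ra ^ 2) * sS d c₁ r κ) := by
  classical
  have hδ := X.δ0
  set S := sS d c₁ r κ with hS
  have hS0 : 0 ≤ S := sS_nonneg _ _ _ _
  set Ua : Set ℂ := VV d δ c₁ N ∩ (f d c₁)^[N] ⁻¹' closedBall 0 4 with hUa
  have hUam : MeasurableSet Ua := (isClosed_VV d δ c₁ N).measurableSet.inter
    ((differentiable_fn d c₁ N).continuous.measurable measurableSet_closedBall)
  have hUav : volume Ua ≤ ENNReal.ofReal (64 * ε') := by
    have h1 := hme d δ c₁ N ((closedBall (0 : ℂ) 4).indicator 1) X.hd hδ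
      (measurable_one.indicator measurableSet_closedBall)
    have h2 : ∫⁻ y in VV d δ c₁ N, (closedBall (0 : ℂ) 4).indicator 1 ((f d c₁)^[N] y) =
        volume Ua := by
      have h3 : ∀ y, (closedBall (0 : ℂ) 4).indicator (1 : ℂ → ENNReal) ((f d c₁)^[N] y) =
          ((f d c₁)^[N] ⁻¹' closedBall 0 4).indicator 1 y := fun y => rfl
      simp only [h3]
      rw [lintegral_indicator_one ((differentiable_fn d c₁ N).continuous.measurable
        measurableSet_closedBall), Measure.restrict_apply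
        ((differentiable_fn d c₁ N).continuous.measurable measurableSet_closedBall), hUa,
        inter_comm]
    rw [h2] at h1
    refine h1.trans ?_
    calc ∫⁻ z, (closedBall (0 : ℂ) 4).indicator 1 z * ENNReal.ofReal (psi d δ c₁ N z)
        ≤ ∫⁻ z, (closedBall (0 : ℂ) 4).indicator (fun _ => ENNReal.ofReal ε') z := by
          apply lintegral_mono
          intro z
          beta_reduce
          by_cases hz : z ∈ closedBall (0 : ℂ) 4
          · rw [indicator_of_mem hz, indicator_of_mem hz, Pi.one_apply, one_mul]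
            rw [mem_closedBall_zero_iff] at hz
            exact ENNReal.ofReal_le_ofReal (hpsi z hz)
          · rw [indicator_of_notMem hz, indicator_of_notMem hz, zero_mul]
      _ = ENNReal.ofReal ε' * volume (closedBall (0 : ℂ) 4) := by
          rw [lintegral_indicator_const measurableSet_closedBall]
      _ ≤ _ := by
          rw [vol_cb' _ (by norm_num), ← ENNReal.ofReal_mul hε'0.le]
          apply ENNReal.ofReal_le_ofReal
          have := Real.pi_le_four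
          nlinarith
  set b₁ : ℝ := 4096 * S * (16 * ε' / T ^ 2) with hb₁
  set b₂ : ℝ := 4096 * S / Ra ^ 2 with hb₂
  have hb₁0 : 0 ≤ b₁ := by positivity
  have hb₂0 : 0 ≤ b₂ := by positivity
  have hmain := hcov (EA d δ N γ u T) (ball u T)
    (fun z => ENNReal.ofReal b₁ + Ua.indicator (fun _ => ENNReal.ofReal b₂) z)
    (fun w => min (T / 2) (Ra / ‖DD d γ N w‖) / 80) 1 measurableSet_ball (by
    intro w hw
    have hu4 := disk4 hT hT1 hw.1
    set ρ := min (T / 2) (Ra / ‖DD d γ N w‖) with hρ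
    obtain ⟨g1, g2, g3, g4, g5, g6⟩ := X.surv htr hr0 hr1 hκ0 hT hCv hu4 hw.1.2 hw.1.1 hw.2 hr2 hr3
      hrκ hε'0 hε' hpsi hRa0 hRa1 hRa2 hRa3 hρ
    have hE0 : 0 < ‖DD d γ N w‖ := by linarith
    refine ⟨by positivity, by linarith, ?_, ?_⟩
    · intro z hz
      have h1 := hw.1.2
      rw [mem_closedBall] at hz
      rw [mem_ball] at h1 ⊢
      linarith [dist_triangle z w u]
    · have e1 : 5 * (ρ / 80) = ρ / 16 := by ring
      rw [e1]
      rw [← ofReal_sS] at g4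
      have h1 := dens (E := BB d γ) (Q := b₁ + b₂) g1 hE0 hS0 g4 (by
        have h2 : 1 / ρ ^ 2 ≤ 1 / (T / 2) ^ 2 + 1 / (Ra / ‖DD d γ N w‖) ^ 2 := by
          rw [hρ]
          exact inv_min_sq (by positivity) (by positivity)
        have h3 : 1 / (‖DD d γ N w‖) ^ 2 ≤ 4 * ε' := by
          rw [div_le_iff₀ (by positivity)]
          exact g5
        calc 4096 * S / (‖DD d γ N w‖ * ρ) ^ 2
            = 4096 * S * (1 / ‖DD d γ N w‖ ^ 2) * (1 / ρ ^ 2) := by
              rw [mul_pow]; field_simp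
          _ ≤ 4096 * S * (1 / ‖DD d γ N w‖ ^ 2) *
                (1 / (T / 2) ^ 2 + 1 / (Ra / ‖DD d γ N w‖) ^ 2) := by gcongr
          _ = 4096 * S * (4 / T ^ 2) * (1 / ‖DD d γ N w‖ ^ 2) + b₂ := by
              rw [hb₂]
              field_simp
              ring
          _ ≤ 4096 * S * (4 / T ^ 2) * (4 * ε') + b₂ := by gcongr
          _ = b₁ + b₂ := by rw [hb₁]; ring)
      calc volume (EA d δ N γ u T ∩ closedBall w (ρ / 16))
          ≤ volume (BB d γ ∩ closedBall w (ρ / 16)) :=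
            measure_mono (inter_subset_inter_left _ fun z hz => hz.1.1)
        _ ≤ ENNReal.ofReal (min 25 (b₁ + b₂)) * volume (closedBall w (ρ / 80)) := h1
        _ ≤ ENNReal.ofReal (b₁ + b₂) * volume (closedBall w (ρ / 80)) := by
            gcongr
            exact min_le_right _ _
        _ ≤ _ := by
            apply const_le_int
            intro z hz
            obtain ⟨g7, g8⟩ := g6 z hz
            have hzU : z ∈ Ua := ⟨g7, by
              rw [mem_preimage, mem_closedBall_zero_iff]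
              exact g8⟩
            rw [indicator_of_mem hzU, ENNReal.ofReal_add hb₁0 hb₂0])
  refine hmain.trans ?_
  calc ∫⁻ z in ball u T, (ENNReal.ofReal b₁ + Ua.indicator (fun _ => ENNReal.ofReal b₂) z)
      = ENNReal.ofReal b₁ * volume (ball u T) +
        ∫⁻ z in ball u T, Ua.indicator (fun _ => ENNReal.ofReal b₂) z := by
        rw [lintegral_add_left measurable_const, setLIntegral_const]
    _ ≤ ENNReal.ofReal b₁ * volume (ball u T) +
        ∫⁻ z, Ua.indicator (fun _ => ENNReal.ofReal b₂) z := by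
        gcongr
        exact Measure.restrict_le_self
    _ = ENNReal.ofReal b₁ * volume (ball u T) + ENNReal.ofReal b₂ * volume Ua := by
        rw [lintegral_indicator_const hUam]
    _ ≤ ENNReal.ofReal b₁ * ENNReal.ofReal (Real.pi * T ^ 2) +
        ENNReal.ofReal b₂ * ENNReal.ofReal (64 * ε') := by
        gcongr
        rw [vol_b' _ hT.le]
    _ = ENNReal.ofReal (b₁ * (Real.pi * T ^ 2) + b₂ * (64 * ε')) := by
        rw [← ENNReal.ofReal_mul hb₁0, ← ENNReal.ofReal_mul hb₂0,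
          ← ENNReal.ofReal_add (by positivity) (by positivity)]
    _ ≤ _ := by
        apply ENNReal.ofReal_le_ofReal
        have h1 : b₁ * (Real.pi * T ^ 2) ≤ 2 ^ 18 * ε' * S := by
          have h2 : b₁ * (Real.pi * T ^ 2) = 4096 * 16 * ε' * S * Real.pi := by
            rw [hb₁]
            field_simp
          rw [h2]
          calc 4096 * 16 * ε' * S * Real.pi ≤ 4096 * 16 * ε' * S * 4 := by
                gcongr
                exact Real.pi_le_four
            _ = _ := by ring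
        have h2 : b₂ * (64 * ε') = 2 ^ 18 * ε' * (1 / Ra ^ 2) * S := by
          rw [hb₂]
          field_simp
          ring
        rw [h2]
        linarith

end Pool.Agent.Y272.GA
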