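import Mathlib
import Pool.Agent.Y272.GA.Mea
import Pool.Agent.Y298.CA.Ent

/-!
# Slow curves: the area of the points which come close to the critical point
-/

set_option autoImplicit false

open Set Filter Metric MeasureTheory

namespace Pool.Agent.Y272.GA

open Pool.Agent.TH279.MD Pool.Agent.Y298.SH Pool.Agent.Y298.SH.CD
open Pool.Agent.Y298.SH.CE (MG RR)
open Pool.Agent.W746.LD (Univ KC exists_KC)
open Pool.Agent.Y298.CA (VV BRc S_ME int_ind vol_cb')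

variable {d : ℕ} {c₁ : ℂ} {θ B ε K₁ δ Γ A' CN Rd : ℝ} {N : ℕ}

/-- **The points with an entrance very close to the critical point.** -/
theorem Ctx.volV (X : Ctx d θ B ε K₁ δ Γ A' CN Rd N c₁) (hme : S_ME)
    {r κ : ℝ} {u : ℂ} {T : ℝ} {γ : ℂ → Fin (d + 1) → ℂ}
    (hr0 : 0 ≤ r) (hr1 : r ≤ 1) (hT : 0 < T) (hT1 : T ≤ 1) (hCv : Cv d c₁ r κ u T γ)
    (hr2 : CN * r ≤ δ / 8) {X₀ : ℝ} (hX0 : 0 < X₀) (hr3 : CN * r ≤ X₀) :
    volume {w | ∃ n < N, EN d δ γ u T n w ∧ ‖GG d γ n w‖ < X₀} ≤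
      ENNReal.ofReal (16 * Γ * X₀ ^ 2) := by
  have hδ := X.δ0
  have hΓ1 := X.Γ1
  set Wc : Set ℂ := closedBall (0 : ℂ) (2 * X₀) ∩ closedBall (0 : ℂ) (3 * δ) with hWc
  have hWm : MeasurableSet Wc := measurableSet_closedBall.inter measurableSet_closedBall
  have h1 : {w | ∃ n < N, EN d δ γ u T n w ∧ ‖GG d γ n w‖ < X₀} ⊆
      ⋃ n ∈ Finset.range N, (VV d δ c₁ n ∩ (f d c₁)^[n] ⁻¹' Wc) := by
    rintro w ⟨n, hn, ⟨hw1, hw2, hw3⟩, hw4⟩
    have hwT : w ∈ ball u T := ball_subset_ball (by linarith) hw1.2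
    have hw4' := disk4 hT hT1 hw1 w hwT
    have haway := X.away hr0 hr1 hCv hwT hw4' hn.le hw2 hr2
    have hpe := (X.pe r κ u T γ hr0 hr1 hCv n hn.le w hwT hw4').1
    have hend : ‖(f d c₁)^[n] w‖ ≤ ‖GG d γ n w‖ + CN * r := by
      calc ‖(f d c₁)^[n] w‖ = ‖GG d γ n w - (GG d γ n w - (f d c₁)^[n] w)‖ := by congr 1; ring
        _ ≤ ‖GG d γ n w‖ + ‖GG d γ n w - (f d c₁)^[n] w‖ := norm_sub_le _ _
        _ ≤ _ := by gcongr
    rw [mem_iUnion₂]
    refine ⟨n, Finset.mem_range.mpr hn, ?_, ?_, ?_⟩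
    · intro j hj
      have := haway j hj
      linarith
    · rw [mem_closedBall_zero_iff]
      linarith
    · rw [mem_closedBall_zero_iff]
      linarith
  have h2 := X.sum_meas hme (β := Wc.indicator 1) (measurable_one.indicator hWm) (by
    intro z hz
    rw [indicator_of_notMem]
    exact fun h => hz h.2)
  calc volume {w | ∃ n < N, EN d δ γ u T n w ∧ ‖GG d γ n w‖ < X₀}
      ≤ volume (⋃ n ∈ Finset.range N, (VV d δ c₁ n ∩ (f d c₁)^[n] ⁻¹' Wc)) := measure_mono h1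
    _ ≤ ∑ n ∈ Finset.range N, volume (VV d δ c₁ n ∩ (f d c₁)^[n] ⁻¹' Wc) :=
        measure_biUnion_finset_le _ _
    _ = ∑ n ∈ Finset.range N, ∫⁻ y in VV d δ c₁ n, Wc.indicator 1 ((f d c₁)^[n] y) := by
        refine Finset.sum_congr rfl fun n _ => ?_
        rw [int_ind d δ c₁ n hWm]
    _ ≤ ENNReal.ofReal Γ * ∫⁻ z, Wc.indicator 1 z := h2
    _ = ENNReal.ofReal Γ * volume Wc := by rw [lintegral_indicator_one hWm]
    _ ≤ ENNReal.ofReal Γ * volume (closedBall (0 : ℂ) (2 * X₀)) := by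
        gcongr
        exact inter_subset_left
    _ ≤ _ := by
        rw [vol_cb' _ (by positivity), ← ENNReal.ofReal_mul (by positivity)]
        apply ENNReal.ofReal_le_ofReal
        calc Γ * (Real.pi * (2 * X₀) ^ 2) ≤ Γ * (4 * (2 * X₀) ^ 2) := by
              gcongr
              exact Real.pi_le_four
          _ = _ := by ring

end Pool.Agent.Y272.GA
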