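import Mathlib
import Pool.Agent.Y272.GA.Ent
import Pool.Agent.Y298.CA.EnB

/-!
# Slow curves: the area of the points which come close to the critical point, main part
-/

set_option autoImplicit false

open Set Filter Metric MeasureTheory

namespace Pool.Agent.Y272.GA

open Pool.Agent.TH279.MD Pool.Agent.Y298.SH Pool.Agent.Y298.SH.CD
open Pool.Agent.Y298.SH.CE (MG RR)
open Pool.Agent.W746.LD (Univ KC exists_KC)
open Pool.Agent.Y298.CA (VV BRc S_COV S_ME dens_alg bet measurable_bet bet_int bet_low1 bet_low2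
  min_add_le vol_b' isClosed_VV dens const_le_int)

variable {d : ℕ} {c₁ : ℂ} {θ B ε K₁ δ Γ A' CN Rd : ℝ} {N : ℕ}

/-- **The points with an entrance close to the critical point.** -/
theorem Ctx.volB (X : Ctx d θ B ε K₁ δ Γ A' CN Rd N c₁) (hcov : S_COV) (htr : S_TR) (hme : S_ME)
    {r κ : ℝ} {u : ℂ} {T : ℝ} {γ : ℂ → Fin (d + 1) → ℂ}
    (hr0 : 0 ≤ r) (hr1 : r ≤ 1) (hκ0 : 0 ≤ κ) (hT : 0 < T) (hT1 : T ≤ 1) (hCv : Cv d c₁ r κ u T γ)
    (hr2 : CN * r ≤ δ / 8) (hrκ : CN * (r + κ) * √Γ * 100 ≤ 1)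
    {X₀ : ℝ} (hX0 : 0 < X₀) (hr3 : CN * r ≤ X₀ / 4)
    (hrX : r ≤ ε * X₀ ^ (d - 1)) (hκ : 2 * √Γ * κ ≤ ε * X₀ ^ (d - 1))
    {a Cs Lam P₀ : ℝ} (ha0 : 0 < a) (ha1 : a ≤ 1) (hCs : 0 < Cs) (hLam : 0 < Lam) (hP₀ : 0 < P₀)
    (hsk : ∀ x : ℝ, X₀ ≤ x → x ≤ 5 / 2 * δ → ∃ (s : ℝ) (k : ℕ), 0 < s ∧ s ≤ 1 ∧ r ≤ s ∧ x ^ d < s ∧
      (∀ j < k, B * θ ^ j * s * Pd d c₁ j ≤ ‖zz d c₁ j‖) ∧ 4 * √Γ ≤ x ^ (d - 1) * Pd d c₁ k ∧
      (1 ≤ Cs * x ^ a * (x ^ (d - 1) * Pd d c₁ k) ^ 2 ∨
        (Pd d c₁ k = P₀ ∧ Lam ≤ x ^ (d - 1) * P₀)))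
    {η : ℝ} (hη : η = ε / (10 * K₁ * √Γ)) {Xr : ℝ} (hXr0 : 0 ≤ Xr)
    (hXr : 4 ^ d * 4096 * sS d c₁ r κ ≤ Xr ^ (2 * d) * (η ^ 2 * P₀ ^ 2))
    {CA CB : ℝ} (hA : ∀ R : ℝ, 0 ≤ R →
      ∫⁻ z in ball (0 : ℂ) R, ENNReal.ofReal (‖z‖ ^ (a - 2)) ≤ ENNReal.ofReal (CA * R ^ a))
    (hB : ∀ x : ℝ, 0 ≤ x →
      ∫⁻ z : ℂ, ENNReal.ofReal (min 1 ((x / ‖z‖) ^ (2 * d))) ≤ ENNReal.ofReal (CB * x ^ 2))
    (hCA : 0 ≤ CA) (hCB : 0 ≤ CB) :
    volume {w | ∃ n < N, EN d δ γ u T n w ∧ X₀ ≤ ‖GG d γ n w‖} ≤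
      ENNReal.ofReal (2 ^ 18 * Γ * (Cs * (5 / 2 * δ) ^ a + 1 / Lam ^ 2) * sS d c₁ r κ +
        Γ * (16384 * sS d c₁ r κ * Cs / η ^ 2 * (CA * (4 * δ) ^ a) + 25 * (CB * Xr ^ 2))) := by
  classical
  have hδ := X.δ0
  have hΓ1 := X.Γ1
  have hK1 := X.K1
  have hε0 := X.ε0
  have hd := X.hd
  set S := sS d c₁ r κ with hS
  have hS0 : 0 ≤ S := sS_nonneg _ _ _ _
  have hsG : 1 ≤ √Γ := Real.one_le_sqrt.mpr hΓ1
  have hη0 : 0 < η := by rw [hη]; positivity
  set β₁ : ℝ := 16384 * S * Cs / η ^ 2 with hβ₁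
  have hβ₁0 : 0 ≤ β₁ := by positivity
  set b₁ : ℝ := 65536 * Γ * S / T ^ 2 * (Cs * (5 / 2 * δ) ^ a + 1 / Lam ^ 2) with hb₁
  have hb₁0 : 0 ≤ b₁ := by positivity
  set β := bet d δ β₁ a Xr with hβ
  have hβm : Measurable β := measurable_bet _ _ _ _ _
  have hitm : ∀ n, Measurable fun z => β ((f d c₁)^[n] z) := fun n =>
    hβm.comp (differentiable_fn d c₁ n).continuous.measurable
  set E := {w | ∃ n < N, EN d δ γ u T n w ∧ X₀ ≤ ‖GG d γ n w‖} with hE
  -- the local estimate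
  have hloc : ∀ w ∈ E, ∃ ρ : ℝ, 0 < ρ ∧ ρ ≤ 1 ∧ closedBall w ρ ⊆ ball u T ∧
      volume (E ∩ closedBall w (5 * ρ)) ≤ ∫⁻ z in closedBall w ρ, (ENNReal.ofReal b₁ +
        ∑ n ∈ Finset.range N, (VV d δ c₁ n).indicator (fun z => β ((f d c₁)^[n] z)) z) := by
    rintro w ⟨n, hn, ⟨hw1, hw2, hw3⟩, hw4⟩
    have hu4 := disk4 hT hT1 hw1
    set x := ‖GG d γ n w‖ with hx
    have hx0 : 0 < x := hX0.trans_le hw4
    obtain ⟨s, k, hs0, hs1, hrs, hxs, hk, hbig, halt⟩ := hsk x hw4 hw3.le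
    set y := x ^ (d - 1) * Pd d c₁ k with hy
    have hy0 : 0 < y := by
      have : 0 < 4 * √Γ := by positivity
      linarith
    set ρ := min (T / 2) (ε / (10 * K₁ * √Γ) * x / ‖DD d γ n w‖) with hρ
    obtain ⟨m, g1, g2, g3, g4, g5, g6, g7⟩ := X.entry htr hr0 hr1 hκ0 hT hCv hu4 hw1.2 hn.le hw2
      hr2 hrκ hx.symm hx0 hw3.le (by linarith) (by
        refine hrX.trans ?_
        gcongr) hs0 hs1 hrs hxs hk (by
        refine hκ.trans ?_
        gcongr) hbig hρ
    have hD0 : 0 < ‖DD d γ m w‖ := by linarith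
    have hE0 : 0 < ‖DD d γ n w‖ := by
      by_contra hcon
      have h1 : ‖DD d γ n w‖ = 0 := le_antisymm (not_lt.mp hcon) (norm_nonneg _)
      rw [h1, mul_zero] at g6
      linarith
    refine ⟨ρ / 80, by positivity, by linarith, ?_, ?_⟩
    · intro z hz
      have h1 := hw1.2
      rw [mem_closedBall] at hz
      rw [mem_ball] at h1 ⊢
      linarith [dist_triangle z w u]
    · have e1 : 5 * (ρ / 80) = ρ / 16 := by ring
      rw [e1]
      rw [← ofReal_sS] at g4
      have h4Γ : 1 ≤ 4 * Γ * ‖DD d γ n w‖ ^ 2 := by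
        have h5 : (2 * √Γ * ‖DD d γ n w‖) ^ 2 = 4 * Γ * ‖DD d γ n w‖ ^ 2 := by
          rw [mul_pow, mul_pow, Real.sq_sqrt (by linarith)]
          norm_num
        have h6 : 1 ≤ (2 * √Γ * ‖DD d γ n w‖) ^ 2 := one_le_pow₀ g6
        rwa [h5] at h6
      have hρ' : ρ = min (T / 2) (η * x / ‖DD d γ n w‖) := by rw [hρ, hη]
      have h1 := dens_alg hS0 hT hE0 hD0 hx0 hy0 hη0 (by linarith) hρ' g5 h4Γ
      -- the two cases
      obtain ⟨q, hq1, hq2⟩ : ∃ q : ℝ, 65536 * Γ * S / (T ^ 2 * y ^ 2) +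
          4096 * S / (η ^ 2 * (x ^ 2 * y ^ 2)) ≤ b₁ + q ∧
          ∀ v : ℂ, ‖v‖ ≤ 2 * x → ‖v‖ ≤ 3 * δ → ENNReal.ofReal (min 25 q) ≤ β v := by
        rcases halt with hsh | ⟨hP, hdp⟩
        · refine ⟨β₁ / 4 * x ^ (a - 2), ?_, ?_⟩
          · have h2 : 1 / y ^ 2 ≤ Cs * x ^ a := by
              rw [div_le_iff₀ (by positivity)]
              exact hsh
            have hxa : x ^ (a - 2) = x ^ a / x ^ 2 := by
              rw [Real.rpow_sub hx0, Real.rpow_two]
            have h3 : x ^ a ≤ (5 / 2 * δ) ^ a := Real.rpow_le_rpow hx0.le hw3.le ha0.le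
            have h4 : 65536 * Γ * S / (T ^ 2 * y ^ 2) ≤ b₁ := by
              calc 65536 * Γ * S / (T ^ 2 * y ^ 2) = 65536 * Γ * S / T ^ 2 * (1 / y ^ 2) := by
                    field_simp
                _ ≤ 65536 * Γ * S / T ^ 2 * (Cs * (5 / 2 * δ) ^ a + 1 / Lam ^ 2) := by
                    gcongr
                    have h5 : 0 ≤ 1 / Lam ^ 2 := by positivity
                    have h6 : Cs * x ^ a ≤ Cs * (5 / 2 * δ) ^ a := by gcongr
                    linarith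
                _ = _ := rfl
            have h5 : 4096 * S / (η ^ 2 * (x ^ 2 * y ^ 2)) ≤ β₁ / 4 * x ^ (a - 2) := by
              rw [hxa, hβ₁]
              calc 4096 * S / (η ^ 2 * (x ^ 2 * y ^ 2)) = 4096 * S / (η ^ 2 * x ^ 2) * (1 / y ^ 2) := by
                    field_simp
                _ ≤ 4096 * S / (η ^ 2 * x ^ 2) * (Cs * x ^ a) := by gcongr
                _ = _ := by
                    field_simp
                    ring
            linarith
          · intro v hv1 hv2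
            refine le_trans ?_ (bet_low1 hβ₁0 ha0 ha1 hx0 hv1 hv2)
            exact ENNReal.ofReal_le_ofReal (min_le_right _ _)
        · refine ⟨4096 * S / (η ^ 2 * (x ^ 2 * y ^ 2)), ?_, ?_⟩
          · have h4 : 65536 * Γ * S / (T ^ 2 * y ^ 2) ≤ b₁ := by
              calc 65536 * Γ * S / (T ^ 2 * y ^ 2) = 65536 * Γ * S / T ^ 2 * (1 / y ^ 2) := by
                    field_simp
                _ ≤ 65536 * Γ * S / T ^ 2 * (Cs * (5 / 2 * δ) ^ a + 1 / Lam ^ 2) := by
                    gcongr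
                    have h5 : 0 ≤ Cs * (5 / 2 * δ) ^ a := by positivity
                    have h6 : 1 / y ^ 2 ≤ 1 / Lam ^ 2 := by
                      rw [← hP] at hdp
                      gcongr
                    linarith
                _ = _ := rfl
            linarith
          · intro v hv1 hv2
            refine bet_low2 hx0 hXr0 ?_ hv1 hv2
            have hxy : x ^ 2 * y ^ 2 = x ^ (2 * d) * P₀ ^ 2 := by
              rw [hy, hP]
              have : x ^ (2 * d) = x ^ 2 * (x ^ (d - 1)) ^ 2 := by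
                rw [← pow_mul, ← pow_add]
                congr 1
                omega
              rw [this]
              ring
            rw [hxy, div_mul_eq_mul_div, div_le_iff₀ (by positivity)]
            calc 4096 * S * (4 ^ d * x ^ (2 * d)) = (4 ^ d * 4096 * S) * x ^ (2 * d) := by ring
              _ ≤ (Xr ^ (2 * d) * (η ^ 2 * P₀ ^ 2)) * x ^ (2 * d) := by gcongr
              _ = _ := by ring
      have hQ := h1.trans hq1
      have h2 := dens (E := BB d γ) (Q := 65536 * Γ * S / (T ^ 2 * y ^ 2) +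
          4096 * S / (η ^ 2 * (x ^ 2 * y ^ 2))) g1 hD0 hS0 g4 h1
      calc volume (E ∩ closedBall w (ρ / 16))
          ≤ volume (BB d γ ∩ closedBall w (ρ / 16)) :=
            measure_mono (inter_subset_inter_left _ fun z hz => by
              obtain ⟨n', -, hz2, -⟩ := hz
              exact hz2.1.1)
        _ ≤ _ := h2
        _ ≤ (ENNReal.ofReal b₁ + ENNReal.ofReal (min 25 q)) * volume (closedBall w (ρ / 80)) := by
            gcongr
            refine (ENNReal.ofReal_le_ofReal (min_add_le hb₁0 hq1)).trans ?_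
            exact ENNReal.ofReal_add_le
        _ ≤ _ := by
            apply const_le_int
            intro z hz
            gcongr
            obtain ⟨g8, g9, g10⟩ := g7 z hz
            refine (hq2 _ g9 g10).trans ?_
            have h3 : β ((f d c₁)^[n] z) =
                (VV d δ c₁ n).indicator (fun z => β ((f d c₁)^[n] z)) z := by
              rw [indicator_of_mem g8]
            rw [h3]
            exact Finset.single_le_sum (f := fun n =>
              (VV d δ c₁ n).indicator (fun z => β ((f d c₁)^[n] z)) z) (fun i _ => bot_le)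
              (Finset.mem_range.mpr hn)
  choose! ρ hρ using hloc
  have hmain := hcov E (ball u T) (fun z => ENNReal.ofReal b₁ +
        ∑ n ∈ Finset.range N, (VV d δ c₁ n).indicator (fun z => β ((f d c₁)^[n] z)) z) ρ 1
        measurableSet_ball hρ
  refine hmain.trans ?_
  have hind : ∀ n, Measurable ((VV d δ c₁ n).indicator fun z => β ((f d c₁)^[n] z)) := fun n =>
    (hitm n).indicator (isClosed_VV d δ c₁ n).measurableSet
  calc ∫⁻ z in ball u T, (ENNReal.ofReal b₁ +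
        ∑ n ∈ Finset.range N, (VV d δ c₁ n).indicator (fun z => β ((f d c₁)^[n] z)) z)
      = ENNReal.ofReal b₁ * volume (ball u T) + ∫⁻ z in ball u T,
        ∑ n ∈ Finset.range N, (VV d δ c₁ n).indicator (fun z => β ((f d c₁)^[n] z)) z := by
        rw [lintegral_add_left measurable_const, setLIntegral_const]
    _ ≤ ENNReal.ofReal b₁ * volume (ball u T) + ∫⁻ z,
        ∑ n ∈ Finset.range N, (VV d δ c₁ n).indicator (fun z => β ((f d c₁)^[n] z)) z := by
        gcongr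
        exact Measure.restrict_le_self
    _ = ENNReal.ofReal b₁ * volume (ball u T) + ∑ n ∈ Finset.range N,
        ∫⁻ z in VV d δ c₁ n, β ((f d c₁)^[n] z) := by
        rw [lintegral_finsetSum _ fun n _ => hind n]
        congr 1
        refine Finset.sum_congr rfl fun n _ => ?_
        rw [lintegral_indicator (isClosed_VV d δ c₁ n).measurableSet]
    _ ≤ ENNReal.ofReal b₁ * volume (ball u T) + ENNReal.ofReal Γ * ∫⁻ z, β z := by
        gcongr
        refine X.sum_meas hme hβm ?_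
        intro z hz
        rw [hβ]
        unfold bet
        rw [indicator_of_notMem hz]
    _ ≤ ENNReal.ofReal b₁ * ENNReal.ofReal (Real.pi * T ^ 2) + ENNReal.ofReal Γ *
        ENNReal.ofReal (β₁ * (CA * (4 * δ) ^ a) + 25 * (CB * Xr ^ 2)) := by
        gcongr
        · rw [vol_b' _ hT.le]
        · exact bet_int hδ hβ₁0 hXr0 hA hB hCA hCB
    _ = ENNReal.ofReal (b₁ * (Real.pi * T ^ 2) +
        Γ * (β₁ * (CA * (4 * δ) ^ a) + 25 * (CB * Xr ^ 2))) := by
        rw [← ENNReal.ofReal_mul hb₁0, ← ENNReal.ofReal_mul (by linarith),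
          ← ENNReal.ofReal_add (by positivity) (by positivity)]
    _ ≤ _ := by
        apply ENNReal.ofReal_le_ofReal
        refine add_le_add ?_ le_rfl
        have h2 : b₁ * (Real.pi * T ^ 2) =
            65536 * Γ * (Cs * (5 / 2 * δ) ^ a + 1 / Lam ^ 2) * S * Real.pi := by
          rw [hb₁]
          field_simp
        rw [h2]
        calc 65536 * Γ * (Cs * (5 / 2 * δ) ^ a + 1 / Lam ^ 2) * S * Real.pi
            ≤ 65536 * Γ * (Cs * (5 / 2 * δ) ^ a + 1 / Lam ^ 2) * S * 4 := by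
              gcongr
              exact Real.pi_le_four
          _ = _ := by ring

end Pool.Agent.Y272.GA
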