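import Mathlib
import Pool.Agent.Y272.GA.Mn
import Pool.Agent.Y298.CA.Par

/-!
# From the space of polynomials to slow curves
-/

set_option autoImplicit false

open Set Filter Metric MeasureTheory

namespace Pool.Agent.Y272.GA

open Pool.Agent.TH279.MD Pool.Agent.Y298.SH Pool.Agent.Y298.SH.CD

variable {d : ℕ} {C₁ lam C₂ β : ℝ} {c₀ : ℂ}

theorem differentiable_it {γ : ℂ → Fin (d + 1) → ℂ} (hγ : Differentiable ℂ γ) {x : ℂ → ℂ}
    (hx : Differentiable ℂ x) (n : ℕ) :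
    Differentiable ℂ fun τ => (FF d (γ τ))^[n] (x τ) := by
  induction n with
  | zero => exact hx
  | succ n ih =>
    have h0 : (fun τ => (FF d (γ τ))^[n + 1] (x τ)) = fun τ => ((FF d (γ τ))^[n] (x τ)) ^ d +
        ∑ i : Fin (d + 1), γ τ i * ((FF d (γ τ))^[n] (x τ)) ^ (i : ℕ) := by
      funext τ
      rw [Function.iterate_succ_apply']
      rfl
    rw [h0]
    refine (ih.pow d).add (Differentiable.fun_sum fun i _ => ?_)
    exact ((differentiable_pi.mp hγ) i).mul (ih.pow (i : ℕ))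

/-- the family of curves joining the unicritical family to a given one -/
noncomputable def gt (d : ℕ) (c₀ : ℂ) (b : Fin (d + 1) → ℂ) (v τ w : ℂ) : Fin (d + 1) → ℂ :=
  ee d c₀ + τ • (b - ee d c₀) + Pi.single 0 (w - c₀ - τ * (v - c₀))

theorem norm_single (x : ℂ) : ‖(Pi.single 0 x : Fin (d + 1) → ℂ)‖ = ‖x‖ := by
  apply le_antisymm
  · rw [pi_norm_le_iff_of_nonneg (norm_nonneg _)]
    intro i
    by_cases hi : i = 0
    · rw [hi, Pi.single_eq_same]
    · rw [Pi.single_eq_of_ne hi, norm_zero]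
      exact norm_nonneg _
  · have h := norm_le_pi_norm (Pi.single 0 x : Fin (d + 1) → ℂ) 0
    rwa [Pi.single_eq_same] at h

theorem gt_zero (b : Fin (d + 1) → ℂ) (v w : ℂ) : gt d c₀ b v 0 w = ee d w := by
  unfold gt ee
  rw [zero_smul, add_zero, zero_mul, sub_zero, ← Pi.single_add]
  congr 1
  ring

theorem gt_one (b : Fin (d + 1) → ℂ) (v w : ℂ) : gt d c₀ b v 1 w = b + Pi.single 0 (w - v) := by
  unfold gt ee
  rw [one_smul, add_sub_cancel]
  congr 2
  ring

theorem gt_near (b : Fin (d + 1) → ℂ) (v τ w : ℂ) :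
    Kd d * ‖gt d c₀ b v τ w - ee d c₀‖ ≤
      ‖τ‖ * (Kd d * ‖b - ee d c₀‖) + Kd d * ‖w - c₀‖ + ‖τ‖ * (Kd d * ‖v - c₀‖) := by
  have hK := Kd_pos d
  have h0 : gt d c₀ b v τ w - ee d c₀ = τ • (b - ee d c₀) +
      Pi.single 0 (w - c₀ - τ * (v - c₀)) := by
    unfold gt
    rw [add_assoc, add_sub_cancel_left]
  rw [h0]
  calc Kd d * ‖τ • (b - ee d c₀) + Pi.single 0 (w - c₀ - τ * (v - c₀))‖
      ≤ Kd d * (‖τ‖ * ‖b - ee d c₀‖ + (‖w - c₀‖ + ‖τ‖ * ‖v - c₀‖)) := by
        gcongr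
        refine (norm_add_le _ _).trans (add_le_add (norm_smul_le _ _) ?_)
        rw [norm_single]
        refine (norm_sub_le _ _).trans (add_le_add le_rfl (norm_mul_le _ _))
    _ = _ := by ring

theorem differentiable_gt_tau (b : Fin (d + 1) → ℂ) (v w : ℂ) :
    Differentiable ℂ fun τ => gt d c₀ b v τ w := by
  rw [differentiable_pi]
  intro i
  unfold gt
  by_cases hi : i = 0
  · subst hi
    simp only [Pi.add_apply, Pi.smul_apply, smul_eq_mul, Pi.single_eq_same]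
    fun_prop
  · simp only [Pi.add_apply, Pi.smul_apply, smul_eq_mul, Pi.single_eq_of_ne hi]
    fun_prop

theorem hasDerivAt_line (b : Fin (d + 1) → ℂ) (v w : ℂ) :
    HasDerivAt (fun w => b + Pi.single 0 (w - v)) (Pi.single 0 (1 : ℂ)) w := by
  rw [hasDerivAt_pi]
  intro i
  by_cases hi : i = 0
  · subst hi
    simp only [Pi.add_apply, Pi.single_eq_same]
    exact ((hasDerivAt_id w).sub_const v).const_add (b 0)
  · simp only [Pi.add_apply, Pi.single_eq_of_ne hi, add_zero]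
    exact hasDerivAt_const w (b i)

theorem line_deriv (b : Fin (d + 1) → ℂ) (v w : ℂ) :
    ‖deriv (fun w => b + (Pi.single 0 (w - v) : Fin (d + 1) → ℂ)) w‖ = 1 := by
  rw [(hasDerivAt_line b v w).deriv, norm_single, norm_one]

/-- **The start in the space of polynomials.** -/
theorem par_start (htr : S_TR) {θ B Ca W : ℝ} (hW : 1 ≤ W) (hPC : PC d C₁ lam θ B Ca)
    (h : CEp d C₁ lam c₀) :
    ∃ ε₁ μ K₂ Cp s₀ : ℝ, 0 < ε₁ ∧ 0 < μ ∧ 0 < K₂ ∧ 0 < Cp ∧ 0 < s₀ ∧ s₀ ≤ 1 ∧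
      ∀ s : ℝ, 0 < s → s ≤ s₀ → ∀ k : ℕ,
        (∀ j < k, B * θ ^ j * s * Pd d c₀ j ≤ ‖zz d c₀ j‖) → s * Pd d c₀ k ≤ 4 * d →
        1 ≤ W * NN d ^ k * s →
        ∀ (b : Fin (d + 1) → ℂ) (v : ℂ), Kd d * ‖b - ee d c₀‖ ≤ μ * s →
        Kd d * ‖v - c₀‖ ≤ μ * s →
        volume (BB d (fun w => b + Pi.single 0 (w - v)) ∩ closedBall c₀ (ε₁ * s)) ≤
          ENNReal.ofReal (Cp * (1 / Pd d c₀ k) ^ 2) * SS d c₀ (s / 2) (K₂ / Pd d c₀ k) := by
  have hd := h.hd
  have hdR : (2 : ℝ) ≤ d := by exact_mod_cast hd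
  have hW0 : 0 < W := by linarith
  have hK1 := one_le_Kd d
  have hK0 := Kd_pos d
  obtain ⟨κg, εg, J, hκg, hεg, hgrow⟩ := h.grow
  have hCa1 := hPC.Ca1
  have hCa0 : 0 < Ca := by linarith
  have hN1 : (1 : ℝ) ≤ NN d := by
    unfold NN
    have h1 : (1 : ℝ) ≤ 2 ^ (d - 1) := one_le_pow₀ (by norm_num)
    have h2 : (1 : ℝ) ≤ (2 * d) ^ d := one_le_pow₀ (by linarith)
    exact one_le_mul_of_one_le_of_one_le h1 h2
  set K := Kd d with hKdef
  -- the size of the perturbation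
  set μ : ℝ := min (1 / 16) (κg / (768 * K * Ca)) with hμ
  have hμ0 : 0 < μ := lt_min (by norm_num) (by positivity)
  have hμ1 : μ ≤ 1 / 16 := min_le_left _ _
  have hμ2 : 768 * K * Ca * μ ≤ κg := by
    have h1 : μ ≤ κg / (768 * K * Ca) := min_le_right _ _
    rw [le_div_iff₀ (by positivity)] at h1
    linarith
  -- the size of the disc
  set ν : ℝ := min (1 / (16 * K)) (min (κg / (2048 * K ^ 2 * Ca)) (1 / (8 * d * K * Ca))) with hν
  have hν0 : 0 < ν := lt_min (by positivity) (lt_min (by positivity) (by positivity))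
  have hν1 : 16 * K * ν ≤ 1 := by
    have h1 : ν ≤ 1 / (16 * K) := min_le_left _ _
    rw [le_div_iff₀ (by positivity)] at h1
    linarith
  have hν2 : 2048 * K ^ 2 * Ca * ν ≤ κg := by
    have h1 : ν ≤ κg / (2048 * K ^ 2 * Ca) := (min_le_right _ _).trans (min_le_left _ _)
    rw [le_div_iff₀ (by positivity)] at h1
    linarith
  have hν3 : 8 * d * K * Ca * ν ≤ 1 := by
    have h1 : ν ≤ 1 / (8 * d * K * Ca) := (min_le_right _ _).trans (min_le_right _ _)
    rw [le_div_iff₀ (by positivity)] at h1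
    linarith
  set s₀ : ℝ := 1 / (2 * W * NN d ^ J) with hs₀
  have hNJ1 : (1 : ℝ) ≤ NN d ^ J := one_le_pow₀ hN1
  have hNJ : (0 : ℝ) < NN d ^ J := by linarith
  have hs₀0 : 0 < s₀ := by positivity
  have hs₀1 : s₀ ≤ 1 := by
    rw [hs₀, div_le_one (by positivity)]
    nlinarith
  refine ⟨ν / 16, μ, 2 * K / κg, 8 / κg ^ 2, s₀, by positivity, hμ0, by positivity, by positivity,
    hs₀0, hs₀1, ?_⟩
  intro s hs0 hss k hk hsP hWN b v hb hv
  have hJk : J ≤ k := by
    by_contra hcon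
    rw [not_le] at hcon
    have h1 : NN d ^ k ≤ NN d ^ J := pow_le_pow_right₀ hN1 hcon.le
    have h2 : W * NN d ^ k * s ≤ W * NN d ^ J * s₀ := by gcongr
    have h3 : W * NN d ^ J * s₀ = 1 / 2 := by rw [hs₀]; field_simp
    linarith
  have hP0 := h.Pd_pos k
  set P := Pd d c₀ k with hP
  have hg := hgrow c₀ h c₀ (by rw [sub_self, norm_zero]; exact hεg.le) k hJk (fun j _ => by
    have h1 : Pd d c₀ j = ‖deriv ((f d c₀)^[j]) c₀‖ := rfl
    have h2 := h.Pd_pos j
    rw [← h1]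
    linarith)
  rw [P_succ_eq hd, ← hP] at hg
  -- the two maps
  set γ : ℂ → Fin (d + 1) → ℂ := fun w => b + Pi.single 0 (w - v) with hγ
  set Φ₀ : ℂ → ℂ := fun c => (f d c)^[k] c with hΦ₀
  have hγd : Differentiable ℂ γ := fun w => (hasDerivAt_line b v w).differentiableAt
  have hΦ₀d : Differentiable ℂ Φ₀ := by
    intro c
    have h1 := (Pool.Agent.H713R2.differentiable_P d (k + 1)) c
    rw [P_succ_eq hd] at h1
    exact h1
  have hΦd : Differentiable ℂ (GG d γ k) := differentiable_it hγd differentiable_id k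
  set ρ₁ : ℝ := s / (4 * K) with hρ₁
  have hρ₁0 : 0 < ρ₁ := by positivity
  have hKρ : K * ρ₁ = s / 4 := by rw [hρ₁]; field_simp
  have hρs : ρ₁ ≤ s / 4 := by
    rw [← hKρ]
    nlinarith
  -- bounds along the family
  have hfam : ∀ τ : ℂ, ‖τ‖ * (8 * μ) ≤ 1 → ∀ w ∈ ball c₀ ρ₁,
      ‖(FF d (gt d c₀ b v τ w))^[k] w - zz d c₀ k‖ ≤ Ca * s * P := by
    intro τ hτ w hw
    rw [mem_ball, dist_eq_norm] at hw
    have h1 := gt_near (c₀ := c₀) b v τ w
    have h2 : K * ‖gt d c₀ b v τ w - ee d c₀‖ ≤ s := by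
      have h3 : ‖τ‖ * (K * ‖b - ee d c₀‖) ≤ ‖τ‖ * (μ * s) := by gcongr
      have h4 : ‖τ‖ * (K * ‖v - c₀‖) ≤ ‖τ‖ * (μ * s) := by gcongr
      have h5 : K * ‖w - c₀‖ ≤ K * ρ₁ := by gcongr
      have h6 : (‖τ‖ * (8 * μ)) * s ≤ 1 * s := by gcongr
      linarith
    exact (hPC.pass c₀ h _ s k hs0 h2 hk w (by
      rw [mem_ball, dist_eq_norm]
      linarith) k le_rfl).1
  have hμτ : ‖(1 : ℂ)‖ * (8 * μ) ≤ 1 := by
    rw [norm_one]
    linarith
  have hbd : ∀ w ∈ ball c₀ ρ₁, ‖GG d γ k w - zz d c₀ k‖ ≤ Ca * s * P := by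
    intro w hw
    have h1 := hfam 1 hμτ w hw
    rw [gt_one] at h1
    exact h1
  -- comparison with the unicritical family
  have hcmp : ∀ w ∈ ball c₀ ρ₁, ‖GG d γ k w - Φ₀ w‖ ≤ 24 * μ * (Ca * s * P) := by
    intro w hw
    set g : ℂ → ℂ := fun τ => (FF d (gt d c₀ b v τ w))^[k] w with hgdef
    have hgd : Differentiable ℂ g :=
      differentiable_it (differentiable_gt_tau b v w) (differentiable_const w) k
    have hg0 : g 0 = Φ₀ w := by
      rw [hgdef]
      beta_reduce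
      rw [gt_zero, FF_ee']
    have hg1 : g 1 = GG d γ k w := by
      rw [hgdef]
      beta_reduce
      rw [gt_one]
      rfl
    set R : ℝ := 1 / (8 * μ) with hR
    have hR0 : 0 < R := by positivity
    have hRμ : R * (8 * μ) = 1 := by rw [hR]; field_simp
    have hR1 : 1 < R := by
      rw [hR, lt_div_iff₀ (by positivity)]
      linarith
    have hM0 : 0 < Ca * s * P := by positivity
    have hgb : ∀ τ ∈ ball (0 : ℂ) R, ‖g τ - zz d c₀ k‖ ≤ Ca * s * P := by
      intro τ hτ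
      rw [mem_ball_zero_iff] at hτ
      refine hfam τ ?_ w hw
      calc ‖τ‖ * (8 * μ) ≤ R * (8 * μ) := by gcongr
        _ = 1 := hRμ
    have hmaps : MapsTo g (ball 0 R) (ball (g 0) (3 * (Ca * s * P))) := by
      intro τ hτ
      rw [mem_ball, dist_eq_norm]
      have h1 := hgb τ hτ
      have h2 := hgb 0 (mem_ball_self hR0)
      calc ‖g τ - g 0‖ = ‖(g τ - zz d c₀ k) - (g 0 - zz d c₀ k)‖ := by congr 1; ring
        _ ≤ ‖g τ - zz d c₀ k‖ + ‖g 0 - zz d c₀ k‖ := norm_sub_le _ _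
        _ < _ := by linarith
    have h3 := Complex.dist_le_div_mul_dist_of_mapsTo_ball hgd.differentiableOn
      (hmaps.mono_right ball_subset_closedBall)
      (z := 1) (by rw [mem_ball_zero_iff, norm_one]; exact hR1)
    rw [hg0, hg1, dist_eq_norm, dist_zero_right, norm_one, mul_one] at h3
    refine h3.trans (le_of_eq ?_)
    rw [hR]
    field_simp
    ring
  set D₀ := deriv Φ₀ c₀ with hD₀
  set D := deriv (GG d γ k) c₀ with hD
  have hdiff : ‖D - D₀‖ ≤ κg / 4 * P := by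
    have h2 := Complex.norm_deriv_le_of_forall_mem_sphere_norm_le (c := c₀) (R := ρ₁ / 2)
      (C := 24 * μ * (Ca * s * P)) (f := fun x => GG d γ k x - Φ₀ x) (by positivity)
      (hΦd.sub hΦ₀d).diffContOnCl (fun x hx => by
        apply hcmp
        rw [mem_sphere] at hx
        rw [mem_ball]
        linarith)
    have h3 : deriv (fun x => GG d γ k x - Φ₀ x) c₀ = D - D₀ :=
      ((hΦd c₀).hasDerivAt.sub (hΦ₀d c₀).hasDerivAt).deriv
    rw [h3] at h2
    calc ‖D - D₀‖ ≤ 24 * μ * (Ca * s * P) / (ρ₁ / 2) := h2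
      _ = (768 * K * Ca * μ) / 4 * P := by
          rw [hρ₁]
          field_simp
          ring
      _ ≤ κg / 4 * P := by gcongr
  have hDge : 3 / 4 * κg * P ≤ ‖D‖ := by
    have h1 : ‖D₀‖ ≤ ‖D‖ + ‖D - D₀‖ := by
      calc ‖D₀‖ = ‖D - (D - D₀)‖ := by congr 1; ring
        _ ≤ _ := norm_sub_le _ _
    have h2 : κg * P ≤ ‖D₀‖ := hg
    linarith
  have hD0 : 0 < ‖D‖ := lt_of_lt_of_le (by positivity) hDge
  have hDle : ‖D‖ ≤ 8 * K * Ca * P := by
    have h2 := Complex.norm_deriv_le_of_forall_mem_sphere_norm_le (c := c₀) (R := ρ₁ / 2)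
      (C := Ca * s * P) (f := fun x => GG d γ k x - zz d c₀ k) (by positivity)
      (hΦd.sub_const _).diffContOnCl (fun x hx => by
        apply hbd
        rw [mem_sphere] at hx
        rw [mem_ball]
        linarith)
    rw [deriv_sub_const] at h2
    calc ‖D‖ ≤ Ca * s * P / (ρ₁ / 2) := h2
      _ = _ := by
          rw [hρ₁]
          field_simp
          ring
  have hνρ : ν * s ≤ ρ₁ / 4 := by
    rw [hρ₁, div_div, le_div_iff₀ (by positivity)]
    calc ν * s * (4 * K * 4) = (16 * K * ν) * s := by ring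
      _ ≤ 1 * s := by gcongr
      _ = s := one_mul s
  have hvar : ∀ w' ∈ ball c₀ (ν * s), ‖deriv (GG d γ k) w' - D‖ ≤ 1 / 4 * ‖D‖ := by
    intro w' hw'
    rw [mem_ball, dist_eq_norm] at hw'
    have h2 := Pool.Agent.Y925.CA.Br.cauchy2 hΦd (y := c₀) (w := zz d c₀ k) (R := Ca * s * P)
      (ρ := ρ₁) (by positivity) hρ₁0 hbd (y' := w') (by linarith)
    calc ‖deriv (GG d γ k) w' - D‖ ≤ 16 * (Ca * s * P) / ρ₁ ^ 2 * ‖w' - c₀‖ := h2
      _ ≤ 16 * (Ca * s * P) / ρ₁ ^ 2 * (ν * s) := by gcongr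
      _ = (2048 * K ^ 2 * Ca * ν) / 8 * P := by
          rw [hρ₁]
          field_simp
          ring
      _ ≤ κg / 8 * P := by gcongr
      _ ≤ 1 / 4 * (3 / 4 * κg * P) := by
          have : 0 < κg * P := by positivity
          linarith
      _ ≤ _ := by gcongr
  have hT := htr d c₀ (s / 2) (2 * K / κg / P) K γ c₀ (ν * s) k D hd (by positivity)
    hγd.differentiableOn (fun w' hw' => by
      rw [mem_ball, dist_eq_norm] at hw'
      have h1 := gt_near (c₀ := c₀) b v 1 w'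
      rw [gt_one, norm_one, one_mul, one_mul] at h1
      have h2 : K * ‖w' - c₀‖ ≤ K * (ν * s) := by gcongr
      have h3 : K * (ν * s) ≤ s / 16 := by
        calc K * (ν * s) = (16 * K * ν) * s / 16 := by ring
          _ ≤ 1 * s / 16 := by gcongr
          _ = _ := by ring
      have h4 : μ * s ≤ 1 / 16 * s := by gcongr
      have h5 : K * ‖γ w' - ee d c₀‖ ≤ K * ‖b - ee d c₀‖ + K * ‖w' - c₀‖ + K * ‖v - c₀‖ := h1
      linarith) (fun w' _ => by
      have h1 := line_deriv b v w'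
      have h2 : ‖deriv γ w'‖ = 1 := h1
      rw [h2, mul_one]) (by
      calc K ≤ 9 / 8 * K := by linarith
        _ = 3 / 4 * (2 * K / κg / P * (3 / 4 * κg * P)) := by
            field_simp
            norm_num
        _ ≤ _ := by gcongr) (norm_pos_iff.mp hD0) (by
      calc ‖D‖ * (ν * s) ≤ (8 * K * Ca * P) * (ν * s) := by gcongr
        _ = 8 * K * Ca * ν * (s * P) := by ring
        _ ≤ 8 * K * Ca * ν * (4 * d) := by gcongr
        _ = 4 * (8 * d * K * Ca * ν) := by ring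
        _ ≤ 5 := by linarith) hvar
  have e1 : ν * s / 16 = ν / 16 * s := by ring
  rw [e1] at hT
  refine hT.trans ?_
  gcongr ?_ * _
  apply ENNReal.ofReal_le_ofReal
  calc 2 / ‖D‖ ^ 2 ≤ 2 / (1 / 2 * κg * P) ^ 2 := by
        gcongr
        have : 0 < κg * P := by positivity
        linarith
    _ = _ := by
        field_simp
        ring

end Pool.Agent.Y272.GA
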