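import Mathlib
import Pool.Agent.Y272.GA.Par
import Pool.Agent.Y298.CA.Sca

/-!
# The area of the non-escaping polynomials in the translation families near a unicritical polynomial
-/

set_option autoImplicit false

open Set Filter Metric MeasureTheory

namespace Pool.Agent.Y272.GA

open Pool.Agent.TH279.MD Pool.Agent.Y298.SH Pool.Agent.Y298.SH.CD
open Pool.Agent.Y298.CA (S_BR S_NH S_LYA Lyap rec_of_lya)

variable {d : ℕ} {C₁ lam C₂ β : ℝ} {c₀ : ℂ}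

/-- all the jobs -/
structure JC : Prop where
  jb : JB
  br : S_BR
  nh : S_NH
  pa : S_PA
  bi : S_BI

/-- the line of polynomials `b + t` with the parameter `w = v + t` -/
def Ln (d : ℕ) (b : Fin (d + 1) → ℂ) (v : ℂ) : ℂ → Fin (d + 1) → ℂ :=
  fun w => b + Pi.single 0 (w - v)

/-- **The area in terms of the derivative.** -/
theorem par_area (Jb : JB) {θ B Ca e Cs W ε K₁ R₀ Y : ℝ}
    (K : K0 d C₁ lam θ B Ca e Cs W ε K₁ R₀ Y) (h : CEp d C₁ lam c₀) :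
    ∃ ε₁ μ C s₀ : ℝ, 0 < ε₁ ∧ 0 < μ ∧ 0 < C ∧ 0 < s₀ ∧ s₀ ≤ 1 ∧
      ∀ s : ℝ, 0 < s → s ≤ s₀ → ∃ k : ℕ,
        ‖zz d c₀ k‖ < B * θ ^ k * s * Pd d c₀ k ∧ lam ^ k * s ≤ 2 * C₁ * lam ∧
        ∀ (b : Fin (d + 1) → ℂ) (v : ℂ), Kd d * ‖b - ee d c₀‖ ≤ μ * s →
        Kd d * ‖v - c₀‖ ≤ μ * s →
        volume (BB d (Ln d b v) ∩ closedBall c₀ (ε₁ * s)) ≤
          ENNReal.ofReal (C * (1 / Pd d c₀ k) ^ (2 * (d : ℝ) / ((d : ℝ) - 1))) := by
  have hd := h.hd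
  have hdR : (2 : ℝ) ≤ d := by exact_mod_cast hd
  have hd1 : 0 < (d : ℝ) - 1 := by linarith
  obtain ⟨ε₁, μ, K₂, Cp, s₁, hε₁, hμ, hK₂, hCp, hs₁, hs₁1, H1⟩ := par_start Jb.tr K.ft.W1 K.pc h
  set m : ℝ := (((d - 1 : ℕ) : ℝ))⁻¹ with hm
  obtain ⟨C, e₂, s₂, hC, he₂, hs₂, hs₂1, H2⟩ := main_local Jb K h hK₂ hm
  refine ⟨ε₁, μ, Cp * C, min s₁ s₂, hε₁, hμ, by positivity, lt_min hs₁ hs₂,
    (min_le_left _ _).trans hs₁1, ?_⟩
  intro s hs0 hss
  have hs1 : s ≤ 1 := hss.trans ((min_le_left _ _).trans hs₁1)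
  obtain ⟨k, hk1, hk2, hk3, hk4, hk5, hk6⟩ := K.ft.base c₀ h s hs0 hs1
  refine ⟨k, hk2, hk3, ?_⟩
  intro b v hb hv
  have h1 := H1 s hs0 (hss.trans (min_le_left _ _)) k hk1 hk4 hk6 b v hb hv
  have h2 := H2 c₀ h (by rw [sub_self, norm_zero]; exact he₂.le) s hs0
    (hss.trans (min_le_right _ _)) k hk1 hk4 hk5
  have hP0 := h.Pd_pos k
  set P := Pd d c₀ k with hP
  have hS0 := sS_nonneg d c₀ (s / 2) (K₂ / P)
  rw [← ofReal_sS, ← ENNReal.ofReal_mul (by positivity)] at h1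
  refine le_trans h1 ?_
  apply ENNReal.ofReal_le_ofReal
  calc Cp * (1 / P) ^ 2 * sS d c₀ (s / 2) (K₂ / P)
      ≤ Cp * (1 / P) ^ 2 * (C * (1 / P) ^ (2 * m)) := by gcongr
    _ = Cp * C * ((1 / P) ^ (2 : ℝ) * (1 / P) ^ (2 * m)) := by
        rw [Real.rpow_two]
        ring
    _ = _ := by
        rw [← Real.rpow_add (by positivity)]
        congr 2
        rw [hm, Nat.cast_sub (by omega), Nat.cast_one]
        field_simp
        ring

/-- **The sharp bound of the area.** -/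
theorem area_local (J : JC) (h : CEp d C₁ lam c₀) (hrec : Rec d C₂ β c₀) (hC₂ : 0 < C₂)
    (hβ : 0 ≤ β) {t : ℝ} (ht0 : 0 ≤ t) (ht : t * (1 + β) < 1) :
    ∃ C ε : ℝ, 0 < C ∧ 0 < ε ∧ ∀ r : ℝ, 0 < r → r ≤ ε →
      ∀ (b : Fin (d + 1) → ℂ) (v : ℂ), ‖b - ee d c₀‖ ≤ r → ‖v - c₀‖ ≤ r →
        volume (BB d (Ln d b v) ∩ closedBall c₀ r) ≤
          ENNReal.ofReal (C * r ^ (t * (2 * (d : ℝ) / ((d : ℝ) - 1)))) := by
  have hd := h.hd
  have hdR : (2 : ℝ) ≤ d := by exact_mod_cast hd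
  have hd1 : 0 < (d : ℝ) - 1 := by linarith
  have hl := h.lam1
  have hl0 : 0 < lam := by linarith
  have hC1 := h.C1
  have hKd := Kd_pos d
  have hloglam : 0 < Real.log lam := Real.log_pos hl
  have hlog2 : 0 < Real.log 2 := Real.log_pos (by norm_num)
  -- the exponent `ω`
  set ω : ℝ := min (1 / (3 * d)) (min (Real.log 2 / Real.log lam) (1 - t * (1 + β))) with hω
  have hω0 : 0 < ω := by
    refine lt_min (by positivity) (lt_min (by positivity) (by linarith))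
  have hω1 : ω ≤ 1 / (3 * d) := min_le_left _ _
  have hω2 : ω ≤ Real.log 2 / Real.log lam := (min_le_right _ _).trans (min_le_left _ _)
  have hω3 : ω ≤ 1 - t * (1 + β) := (min_le_right _ _).trans (min_le_right _ _)
  set θ : ℝ := lam ^ ω with hθ
  have hθ1 : 1 < θ := Real.one_lt_rpow hl hω0
  have hθ2 : θ ≤ 2 := by
    rw [hθ, Real.rpow_def_of_pos hl0]
    rw [le_div_iff₀ hloglam] at hω2
    calc Real.exp (Real.log lam * ω) ≤ Real.exp (Real.log 2) := Real.exp_le_exp.mpr (by linarith)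
      _ = 2 := Real.exp_log (by norm_num)
  have hθd : θ ^ (3 * d) ≤ lam := by
    rw [hθ, ← Real.rpow_natCast, ← Real.rpow_mul hl0.le]
    have h1 : ω * ((3 * d : ℕ) : ℝ) ≤ 1 := by
      push_cast
      rw [le_div_iff₀ (by positivity)] at hω1
      exact hω1
    calc lam ^ (ω * ((3 * d : ℕ) : ℝ)) ≤ lam ^ (1 : ℝ) :=
          Real.rpow_le_rpow_of_exponent_le hl.le h1
      _ = lam := Real.rpow_one lam
  obtain ⟨B, Ca, e, Cs, W, ε, K₁, R₀, Y, K⟩ := k0_exists J.br J.nh J.pa J.bi hd C₁ lam θ hC1 hl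
    hθ1 hθ2 hθd
  obtain ⟨ε₁', μ, C, s₀, hε₁', hμ, hC, hs₀, hs₀1, H⟩ := par_area J.jb K h
  have hB1 : 1 ≤ B := K.pc.Ca1.trans K.pc.CaB
  have hB0 : 0 < B := by linarith
  have hC₁0 : 0 < C₁ := by linarith
  set ε₁ : ℝ := min ε₁' (μ / Kd d) with hε₁def
  have hε₁ : 0 < ε₁ := lt_min hε₁' (by positivity)
  have hε₁a : ε₁ ≤ ε₁' := min_le_left _ _
  have hε₁b : Kd d * ε₁ ≤ μ := by
    have h1 : ε₁ ≤ μ / Kd d := min_le_right _ _
    rw [le_div_iff₀ hKd] at h1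
    linarith
  set q : ℝ := 1 / (1 + β) with hq
  have hβ1 : 0 < 1 + β := by linarith
  have hq0 : 0 < q := by positivity
  set F : ℝ := C₂ * B * (2 * C₁ * lam) ^ ω with hF
  have hF0 : 0 < F := by positivity
  set Fq : ℝ := F ^ q with hFq
  have hFq0 : 0 < Fq := by positivity
  set E : ℝ := 2 * (d : ℝ) / ((d : ℝ) - 1) with hE
  have hE0 : 0 < E := by positivity
  refine ⟨C * (Fq * (1 / ε₁) ^ t) ^ E, ε₁ * s₀, by positivity, by positivity, ?_⟩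
  intro r hr0 hrs b v hb hv
  set s : ℝ := r / ε₁ with hs
  have hs0 : 0 < s := by positivity
  have hss : s ≤ s₀ := by
    rw [hs, div_le_iff₀ hε₁]
    linarith
  have hs1 : s ≤ 1 := hss.trans hs₀1
  have hrs' : ε₁ * s = r := by rw [hs]; field_simp
  obtain ⟨k, hk2, hk3, hk4'⟩ := H s hs0 hss
  have hk4 : volume (BB d (Ln d b v) ∩ closedBall c₀ r) ≤
      ENNReal.ofReal (C * (1 / Pd d c₀ k) ^ E) := by
    have h5 : Kd d * r ≤ μ * s := by
      calc Kd d * r = (Kd d * ε₁) * s := by rw [← hrs']; ring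
        _ ≤ μ * s := by gcongr
    refine le_trans (measure_mono (inter_subset_inter_right _ (closedBall_subset_closedBall ?_)))
      (hk4' b v (le_trans (by gcongr) h5) (le_trans (by gcongr) h5))
    rw [← hrs']
    gcongr
  set Q := Pd d c₀ k with hQ
  have hQ0 : 0 < Q := h.Pd_pos k
  -- bound of `θ ^ k`
  have h1 : θ ^ k ≤ (2 * C₁ * lam) ^ ω * s ^ (-ω) := by
    have h2 : θ ^ k = (lam ^ k) ^ ω := by
      rw [hθ, ← Real.rpow_natCast, ← Real.rpow_natCast, ← Real.rpow_mul hl0.le,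
        ← Real.rpow_mul hl0.le, mul_comm]
    have h3 : lam ^ k ≤ 2 * C₁ * lam / s := by rwa [le_div_iff₀ hs0]
    rw [h2]
    calc (lam ^ k) ^ ω ≤ (2 * C₁ * lam / s) ^ ω := Real.rpow_le_rpow (by positivity) h3 hω0.le
      _ = _ := by
          rw [Real.div_rpow (by positivity) hs0.le, Real.rpow_neg hs0.le]
          rfl
  -- bound of `Q`
  have h2 : 1 ≤ F * s ^ (1 - ω) * Q ^ (1 + β) := by
    have h3 := hrec k
    have hPβ : 0 < Q ^ β := Real.rpow_pos_of_pos hQ0 β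
    calc 1 ≤ C₂ * (‖zz d c₀ k‖ * Q ^ β) := h3
      _ ≤ C₂ * ((B * θ ^ k * s * Q) * Q ^ β) := by gcongr
      _ ≤ C₂ * ((B * ((2 * C₁ * lam) ^ ω * s ^ (-ω)) * s * Q) * Q ^ β) := by gcongr
      _ = F * (s ^ (-ω) * s) * (Q * Q ^ β) := by rw [hF]; ring
      _ = _ := by
          rw [Real.rpow_add hQ0, Real.rpow_one, sub_eq_add_neg, Real.rpow_add hs0, Real.rpow_one]
          ring
  have h3 : 1 / Q ≤ Fq * s ^ t := by
    have h4 : (1 / Q : ℝ) = (1 / Q ^ (1 + β)) ^ q := by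
      rw [Real.div_rpow zero_le_one (by positivity), Real.one_rpow, ← Real.rpow_mul hQ0.le, hq,
        mul_div_cancel₀ _ hβ1.ne', Real.rpow_one]
    have h5 : (1 / Q : ℝ) ≤ (F * s ^ (1 - ω)) ^ q := by
      rw [h4]
      apply Real.rpow_le_rpow (by positivity) _ hq0.le
      rw [div_le_iff₀ (by positivity)]
      exact h2
    have h6 : (s ^ (1 - ω)) ^ q ≤ s ^ t := by
      rw [← Real.rpow_mul hs0.le]
      apply Real.rpow_le_rpow_of_exponent_ge hs0 hs1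
      rw [hq, mul_one_div, le_div_iff₀ hβ1]
      linarith
    calc (1 / Q : ℝ) ≤ (F * s ^ (1 - ω)) ^ q := h5
      _ = F ^ q * (s ^ (1 - ω)) ^ q := Real.mul_rpow hF0.le (by positivity)
      _ ≤ _ := by gcongr
  refine hk4.trans ?_
  apply ENNReal.ofReal_le_ofReal
  calc C * (1 / Q) ^ E ≤ C * (Fq * s ^ t) ^ E := by gcongr
    _ = C * ((Fq * (1 / ε₁) ^ t) * r ^ t) ^ E := by
        congr 2
        rw [hs, div_eq_mul_one_div, Real.mul_rpow hr0.le (by positivity)]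
        ring
    _ = C * (Fq * (1 / ε₁) ^ t) ^ E * (r ^ t) ^ E := by
        rw [Real.mul_rpow (by positivity) (by positivity)]
        ring
    _ = _ := by rw [← Real.rpow_mul hr0.le]

/-- **The sharp bound of the area, parameters with a positive Lyapunov exponent.** -/
theorem area_lyap (J : JC) (hLYA : S_LYA) (hd : 2 ≤ d) {χ : ℝ} (h : Lyap d χ c₀) {E : ℝ}
    (hE0 : 0 ≤ E) (hE : E < 2 * (d : ℝ) / ((d : ℝ) - 1)) :
    ∃ C ε : ℝ, 0 < C ∧ 0 < ε ∧ ∀ r : ℝ, 0 < r → r ≤ ε →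
      ∀ (b : Fin (d + 1) → ℂ) (v : ℂ), ‖b - ee d c₀‖ ≤ r → ‖v - c₀‖ ≤ r →
        volume (BB d (Ln d b v) ∩ closedBall c₀ r) ≤ ENNReal.ofReal (C * r ^ E) := by
  have hdR : (2 : ℝ) ≤ d := by exact_mod_cast hd
  have hd1 : 0 < (d : ℝ) - 1 := by linarith
  set E₀ : ℝ := 2 * (d : ℝ) / ((d : ℝ) - 1) with hE₀
  have hE₀0 : 0 < E₀ := by positivity
  obtain ⟨⟨C₁, lam, hce⟩, -⟩ := hLYA d χ c₀ hd h
  set t : ℝ := E / E₀ with ht
  have ht0 : 0 ≤ t := by positivity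
  have ht1 : t < 1 := by
    rw [ht, div_lt_one hE₀0]
    exact hE
  set β : ℝ := (1 - t) / 2 with hβ
  have hβ0 : 0 < β := by
    rw [hβ]
    linarith
  obtain ⟨C₂, hC₂, hrec⟩ := rec_of_lya hLYA hd h hβ0
  have h1 : t * (1 + β) < 1 := by
    rw [hβ]
    nlinarith
  obtain ⟨C, ε, hC, hε, H⟩ := area_local J hce hrec hC₂ hβ0.le ht0 h1
  refine ⟨C, ε, hC, hε, ?_⟩
  intro r hr hrε b v hb hv
  have h2 := H r hr hrε b v hb hv
  have h3 : t * (2 * (d : ℝ) / ((d : ℝ) - 1)) = E := by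
    rw [ht, ← hE₀]
    field_simp
  rwa [h3] at h2

end Pool.Agent.Y272.GA
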