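import Mathlib
import Pool.Agent.Y272.GA.Up
import Pool.Agent.Y298.CA.All
import Pool.Agent.Y674.CA.Lya
import Pool.Agent.Y884.GA.Tr
import Pool.Agent.Y948.GA.Pe
import Pool.Agent.Y98.GA.Push
import Pool.Agent.Y43.GA.BI
import Pool.Agent.Y333.GA.Pa

/-!
# The area of the non-escaping polynomials in the translation families: final form
-/

set_option autoImplicit false

open Set Filter Metric MeasureTheory

namespace Pool.Agent.Y272.GA

open Pool.Agent.Y298.CA (Lyap)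

theorem jc : JC :=
  { jb :=
      { cov := Pool.Agent.Y79.CA.cov
        tr := Pool.Agent.Y884.GA.t
        me := Pool.Agent.Y932.CA.me
        one := Pool.Agent.Y932.CA.one
        pe := Pool.Agent.Y948.GA.t
        ra := Pool.Agent.Y737.CA.ra
        rb := Pool.Agent.Y737.CA.rb
        ps := Pool.Agent.Y811.CA.ps }
    br := Pool.Agent.Y925.CA.Br.br
    nh := Pool.Agent.Y356.CA.nh
    pa := Pool.Agent.Y333.GA.t
    bi := Pool.Agent.Y43.GA.t Pool.Agent.Y98.GA.t }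

variable {d : ℕ} {c₀ : ℂ}

open Pool.Agent.TH279.MD Pool.Agent.Y298.SH Pool.Agent.Y298.SH.CD

/-- The bound of the area with the exponent `E`, for one critical value. -/
def AR (d : ℕ) (c₀ : ℂ) (E : ℝ) : Prop :=
  ∃ C ε : ℝ, 0 < C ∧ 0 < ε ∧ ∀ r : ℝ, 0 < r → r ≤ ε →
    ∀ (b : Fin (d + 1) → ℂ) (v : ℂ), ‖b - ee d c₀‖ ≤ r → ‖v - c₀‖ ≤ r →
      volume (BB d (Ln d b v) ∩ closedBall c₀ r) ≤ ENNReal.ofReal (C * r ^ E)

/-- **Collet-Eckmann parameters with a recurrence condition.** -/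
theorem ar_rec {C₁ lam C₂ β : ℝ} (h : CEp d C₁ lam c₀) (hrec : Rec d C₂ β c₀) (hβ : 0 ≤ β) {E : ℝ}
    (hE0 : 0 ≤ E) (hE : E * (1 + β) < 2 * (d : ℝ) / ((d : ℝ) - 1)) : AR d c₀ E := by
  have hd := h.hd
  have hdR : (2 : ℝ) ≤ d := by exact_mod_cast hd
  have hd1 : 0 < (d : ℝ) - 1 := by linarith
  set E₀ : ℝ := 2 * (d : ℝ) / ((d : ℝ) - 1) with hE₀
  have hE₀0 : 0 < E₀ := by positivity
  have hC₂ : 0 < C₂ := by
    have h1 := hrec 0
    by_contra hcon
    rw [not_lt] at hcon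
    have h2 : 0 ≤ ‖zz d c₀ 0‖ * Pd d c₀ 0 ^ β :=
      mul_nonneg (norm_nonneg _) (Real.rpow_nonneg (h.Pd_pos 0).le _)
    have h3 := mul_nonpos_of_nonpos_of_nonneg hcon h2
    linarith
  have ht0 : 0 ≤ E / E₀ := by positivity
  have ht1 : E / E₀ * (1 + β) < 1 := by
    rw [div_mul_eq_mul_div, div_lt_one hE₀0]
    exact hE
  obtain ⟨C, ε, hC, hε, H⟩ := area_local jc h hrec hC₂ hβ ht0 ht1
  refine ⟨C, ε, hC, hε, ?_⟩
  intro r hr hrε b v hb hv
  have h2 := H r hr hrε b v hb hv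
  have h3 : E / E₀ * (2 * (d : ℝ) / ((d : ℝ) - 1)) = E := by
    rw [← hE₀]
    field_simp
  rwa [h3] at h2

/-- **All Collet-Eckmann parameters.** -/
theorem ar_ce {C₁ lam : ℝ} (h : CEp d C₁ lam c₀) {E : ℝ} (hE0 : 0 ≤ E)
    (hE : E * (1 - Real.log lam / (d * Real.log (2 * d))) < 2) : AR d c₀ E := by
  have hd := h.hd
  have hdR : (2 : ℝ) ≤ d := by exact_mod_cast hd
  have hd1 : 0 < (d : ℝ) - 1 := by linarith
  have hlog : 0 < Real.log (2 * d) := Real.log_pos (by linarith)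
  have hll : 0 < Real.log lam := Real.log_pos h.lam1
  have hle : Real.log lam ≤ Real.log (2 * d) :=
    Real.log_le_log (by linarith [h.lam1]) h.lam_le
  have hq1 : Real.log lam / Real.log (2 * d) ≤ 1 := by
    rw [div_le_one hlog]
    exact hle
  refine ar_rec h h.recB (div_nonneg (by linarith) hd1.le) hE0 ?_
  set q := Real.log lam / Real.log (2 * d) with hq
  have h1 : Real.log lam / (d * Real.log (2 * d)) = q / d := by
    rw [hq]
    field_simp
  rw [h1] at hE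
  rw [lt_div_iff₀ hd1]
  have h2 : E * (1 + (1 - q) / ((d : ℝ) - 1)) * ((d : ℝ) - 1) = (E * (1 - q / d)) * d := by
    field_simp
    ring
  rw [h2]
  gcongr

/-- **Parameters with a positive Lyapunov exponent.** -/
theorem ar_lyap (hd : 2 ≤ d) {χ : ℝ} (h : Lyap d χ c₀) {E : ℝ}
    (hE0 : 0 ≤ E) (hE : E < 2 * (d : ℝ) / ((d : ℝ) - 1)) : AR d c₀ E :=
  area_lyap jc Pool.Agent.Y674.CA.lya hd h hE0 hE

end Pool.Agent.Y272.GA
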