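import Mathlib
import Pool.Agent.Y272.GA.Bas

/-!
# The non-escaping polynomials: definitions and statements
-/

set_option autoImplicit false

open Set Filter Metric MeasureTheory

namespace Pool.Agent.Y272.GA

/-- The polynomials with a critical point which does not escape. -/
def NE (d : ℕ) : Set (Fin (d + 1) → ℂ) :=
  {b | ∃ ω : ℂ, dF d b ω = 0 ∧ ¬ Tendsto (fun n => ‖(FF d b)^[n] ω‖) atTop atTop}

/-- Near a unicritical polynomial the non-escaping polynomials form a closed set. -/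
def S_CLO : Prop := ∀ (d : ℕ) (c₀ : ℂ), 2 ≤ d → ‖c₀‖ < 2 → ∃ ρ₁ : ℝ, 0 < ρ₁ ∧ ∀ ρ : ℝ, ρ ≤ ρ₁ →
  IsClosed (NE d ∩ closedBall (ee d c₀) ρ)

/-- Integration over the first coordinate. -/
def S_FUB : Prop := ∀ (d : ℕ) (c : Fin (d + 1) → ℂ) (ρ : ℝ) (S : Set (Fin (d + 1) → ℂ))
  (M : ENNReal), 0 < ρ → MeasurableSet S → S ⊆ closedBall c ρ →
  (∀ b ∈ closedBall c ρ, b 0 = c 0 →
    volume {t : ℂ | b + (Pi.single 0 t : Fin (d + 1) → ℂ) ∈ S} ≤ M) →
  volume S * volume (closedBall (0 : ℂ) ρ) ≤ M * volume (closedBall c ρ)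

end Pool.Agent.Y272.GA
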