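import Mathlib
import Pool.Agent.Y272.GA.All
import Pool.Agent.Y272.GA.Frt

/-!
# The translation families: all critical points
-/

set_option autoImplicit false

open Set Filter Metric MeasureTheory

namespace Pool.Agent.Y272.GA

open Pool.Agent.TH279.MD Pool.Agent.Y298.SH Pool.Agent.Y298.SH.CD
open Pool.Agent.Y298.CA (Lyap)

variable {d : ℕ} {c₀ : ℂ}

/-- the perturbation part is small compared with `‖z‖ ^ d` -/
theorem pert_le {v : Fin (d + 1) → ℂ} {z : ℂ} (hz : 1 ≤ ‖z‖) :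
    ‖∑ i : Fin (d + 1), v i * z ^ (i : ℕ)‖ ≤ ((d : ℝ) + 1) * ‖v‖ * ‖z‖ ^ d := by
  calc ‖∑ i : Fin (d + 1), v i * z ^ (i : ℕ)‖ ≤ ∑ i : Fin (d + 1), ‖v i * z ^ (i : ℕ)‖ :=
        norm_sum_le _ _
    _ ≤ ∑ _i : Fin (d + 1), ‖v‖ * ‖z‖ ^ d := by
        refine Finset.sum_le_sum fun i _ => ?_
        rw [norm_mul, norm_pow]
        have hi := i.isLt
        exact mul_le_mul (norm_le_pi_norm v i) (pow_le_pow_right₀ hz (by omega)) (by positivity)
          (norm_nonneg _)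
    _ = _ := by
        rw [Finset.sum_const, Finset.card_univ, Fintype.card_fin, nsmul_eq_mul]
        push_cast
        ring

theorem dpert_le {v : Fin (d + 1) → ℂ} {z : ℂ} (hz : 1 ≤ ‖z‖) :
    ‖∑ i : Fin (d + 1), v i * (((i : ℕ) : ℂ) * z ^ ((i : ℕ) - 1))‖ ≤
      ((d : ℝ) + 1) ^ 2 * ‖v‖ * ‖z‖ ^ (d - 1) := by
  calc ‖∑ i : Fin (d + 1), v i * (((i : ℕ) : ℂ) * z ^ ((i : ℕ) - 1))‖
      ≤ ∑ i : Fin (d + 1), ‖v i * (((i : ℕ) : ℂ) * z ^ ((i : ℕ) - 1))‖ := norm_sum_le _ _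
    _ ≤ ∑ _i : Fin (d + 1), ‖v‖ * (((d : ℝ) + 1) * ‖z‖ ^ (d - 1)) := by
        refine Finset.sum_le_sum fun i _ => ?_
        rw [norm_mul, norm_mul, norm_pow, Complex.norm_natCast]
        have hi := i.isLt
        have h3 : (((i : ℕ) : ℝ)) ≤ (d : ℝ) + 1 := by exact_mod_cast hi.le
        exact mul_le_mul (norm_le_pi_norm v i) (mul_le_mul h3 (pow_le_pow_right₀ hz (by omega))
          (by positivity) (by positivity)) (by positivity) (norm_nonneg _)
    _ = _ := by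
        rw [Finset.sum_const, Finset.card_univ, Fintype.card_fin, nsmul_eq_mul]
        push_cast
        ring

/-- growth outside the disc of radius two -/
theorem esc_step (hd : 2 ≤ d) (hc : ‖c₀‖ < 2) {b : Fin (d + 1) → ℂ}
    (hb : ‖b - ee d c₀‖ * (8 * ((d : ℝ) + 1)) ≤ 2 - ‖c₀‖) {y : ℂ} (hy : 2 ≤ ‖y‖) :
    ‖y‖ + (2 - ‖c₀‖) / 2 ≤ ‖FF d b y‖ := by
  have hb0 := norm_nonneg (b - ee d c₀)
  have hc0 := norm_nonneg c₀
  set β := ‖b - ee d c₀‖ with hβ
  have h1 : ‖FF d b y - f d c₀ y‖ ≤ ((d : ℝ) + 1) * β * ‖y‖ ^ d := by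
    rw [← FF_ee, FF_sub_FF]
    exact pert_le (by linarith)
  have h2 : ‖y‖ ^ d - ‖c₀‖ ≤ ‖f d c₀ y‖ := by
    rw [f_apply, ← norm_pow]
    have := norm_sub_le (y ^ d + c₀) c₀
    rw [add_sub_cancel_right] at this
    linarith
  have h3 : ‖f d c₀ y‖ ≤ ‖FF d b y‖ + ‖FF d b y - f d c₀ y‖ := by
    calc ‖f d c₀ y‖ = ‖FF d b y - (FF d b y - f d c₀ y)‖ := by congr 1; ring
      _ ≤ _ := norm_sub_le _ _
  have h4 : 2 * ‖y‖ ≤ ‖y‖ ^ d := by
    calc 2 * ‖y‖ ≤ ‖y‖ * ‖y‖ := by gcongr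
      _ = ‖y‖ ^ 2 := by ring
      _ ≤ ‖y‖ ^ d := pow_le_pow_right₀ (by linarith) hd
  have h5 : 0 ≤ 1 - ((d : ℝ) + 1) * β := by nlinarith
  have h6 : 2 * ‖y‖ * (1 - ((d : ℝ) + 1) * β) ≤ ‖y‖ ^ d * (1 - ((d : ℝ) + 1) * β) := by gcongr
  have h7 : 0 ≤ 1 - 2 * ((d : ℝ) + 1) * β := by nlinarith
  have h8 : 2 * (1 - 2 * ((d : ℝ) + 1) * β) ≤ ‖y‖ * (1 - 2 * ((d : ℝ) + 1) * β) := by gcongr
  nlinarith

/-- escape -/
theorem esc (hd : 2 ≤ d) (hc : ‖c₀‖ < 2) {b : Fin (d + 1) → ℂ}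
    (hb : ‖b - ee d c₀‖ * (8 * ((d : ℝ) + 1)) ≤ 2 - ‖c₀‖) {z : ℂ} {n : ℕ}
    (hn : 2 < ‖(FF d b)^[n] z‖) : Tendsto (fun n => ‖(FF d b)^[n] z‖) atTop atTop := by
  set η : ℝ := (2 - ‖c₀‖) / 2 with hη
  have hη0 : 0 < η := by rw [hη]; linarith
  have h1 : ∀ m : ℕ, 2 + m * η ≤ ‖(FF d b)^[n + m] z‖ := by
    intro m
    induction m with
    | zero =>
      rw [Nat.cast_zero, zero_mul, add_zero, add_zero]
      exact hn.le
    | succ m ih =>
      have h2 : 2 ≤ ‖(FF d b)^[n + m] z‖ := by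
        have : 0 ≤ m * η := by positivity
        linarith
      have h3 := esc_step hd hc hb h2
      rw [← add_assoc, Function.iterate_succ_apply']
      push_cast
      linarith
  have h2 : Tendsto (fun m : ℕ => 2 + m * η) atTop atTop :=
    tendsto_atTop_add_const_left _ _ (tendsto_natCast_atTop_atTop.atTop_mul_const hη0)
  have h3 : Tendsto (fun m : ℕ => ‖(FF d b)^[n + m] z‖) atTop atTop :=
    tendsto_atTop_mono h1 h2
  refine (tendsto_add_atTop_iff_nat (f := fun m : ℕ => ‖(FF d b)^[m] z‖) n).mp ?_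
  refine h3.congr fun m => ?_
  rw [add_comm n m]

/-- critical points are in the unit disc -/
theorem crit_le_one (hd : 2 ≤ d) {b : Fin (d + 1) → ℂ}
    (hb : ‖b - ee d c₀‖ * ((d : ℝ) + 1) ^ 2 ≤ 1) {ω : ℂ} (hω : 1 ≤ ‖ω‖) : dF d b ω ≠ 0 := by
  intro h0
  have hdR : (2 : ℝ) ≤ d := by exact_mod_cast hd
  have h1 : ‖dF d b ω - d * ω ^ (d - 1)‖ ≤ ((d : ℝ) + 1) ^ 2 * ‖b - ee d c₀‖ * ‖ω‖ ^ (d - 1) := by
    rw [← dF_ee d c₀, dF_sub_dF]
    exact dpert_le hω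
  rw [h0, zero_sub, norm_neg, norm_mul, norm_pow, Complex.norm_natCast] at h1
  have h2 : 0 < ‖ω‖ ^ (d - 1) := by positivity
  have h3 : ((d : ℝ) + 1) ^ 2 * ‖b - ee d c₀‖ * ‖ω‖ ^ (d - 1) ≤ 1 * ‖ω‖ ^ (d - 1) := by
    gcongr
    linarith
  nlinarith

/-- the critical values are close to `c₀` -/
theorem crit_value (hd : 2 ≤ d) {b : Fin (d + 1) → ℂ}
    (hb : ‖b - ee d c₀‖ * ((d : ℝ) + 1) ^ 2 ≤ 1) {ω : ℂ} (hω : dF d b ω = 0) :
    ‖FF d b ω - c₀‖ ≤ 2 * Kd d * ‖b - ee d c₀‖ := by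
  have hdR : (2 : ℝ) ≤ d := by exact_mod_cast hd
  have h1 : ‖ω‖ < 1 := by
    by_contra hcon
    exact crit_le_one hd hb (not_lt.mp hcon) hω
  have h4 : ‖ω‖ ≤ 4 := by linarith
  have h2 := norm_dF_sub_pow b c₀ h4
  rw [hω, zero_sub, norm_neg, norm_mul, norm_pow, Complex.norm_natCast] at h2
  have h3 := norm_FF_sub_f b c₀ h4
  have h5 : ‖ω‖ ^ d ≤ ‖ω‖ ^ (d - 1) := pow_le_pow_of_le_one (norm_nonneg _) h1.le (by omega)
  have h6 : 0 ≤ ‖ω‖ ^ (d - 1) := by positivity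
  calc ‖FF d b ω - c₀‖ = ‖(FF d b ω - f d c₀ ω) + ω ^ d‖ := by rw [f_apply]; congr 1; ring
    _ ≤ ‖FF d b ω - f d c₀ ω‖ + ‖ω‖ ^ d := by
        rw [← norm_pow]
        exact norm_add_le _ _
    _ ≤ Kd d * ‖b - ee d c₀‖ + Kd d * ‖b - ee d c₀‖ := by
        refine add_le_add h3 (h5.trans (le_trans ?_ h2))
        nlinarith
    _ = _ := by ring

open Polynomial in
/-- the polynomial -/
noncomputable def pol (d : ℕ) (b : Fin (d + 1) → ℂ) : ℂ[X] :=
  X ^ d + ∑ i : Fin (d + 1), C (b i) * X ^ (i : ℕ)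

theorem pol_eval (b : Fin (d + 1) → ℂ) (z : ℂ) : (pol d b).eval z = FF d b z := by
  unfold pol FF
  simp [Polynomial.eval_finsetSum]

theorem pol_derivative_eval (b : Fin (d + 1) → ℂ) (z : ℂ) :
    (pol d b).derivative.eval z = dF d b z := by
  have h1 := (pol d b).hasDerivAt z
  have h2 : (fun x => (pol d b).eval x) = FF d b := funext (pol_eval b)
  rw [h2] at h1
  exact h1.unique (hasDerivAt_FF b z)

theorem pol_natDegree (b : Fin (d + 1) → ℂ) : (pol d b).natDegree ≤ d := by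
  unfold pol
  refine Polynomial.natDegree_add_le_of_degree_le (Polynomial.natDegree_X_pow_le d) ?_
  refine Polynomial.natDegree_sum_le_of_forall_le _ _ fun i _ => ?_
  have hi := i.isLt
  exact (Polynomial.natDegree_C_mul_X_pow_le _ _).trans (by omega)

/-- finitely many critical points -/
theorem crit_finset (hd : 2 ≤ d) {b : Fin (d + 1) → ℂ}
    (hb : ‖b - ee d c₀‖ * ((d : ℝ) + 1) ^ 2 ≤ 1) :
    ∃ F : Finset ℂ, F.card ≤ d ∧ ∀ ω, dF d b ω = 0 → ω ∈ F := by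
  classical
  have hP : (pol d b).derivative ≠ 0 := by
    intro h0
    have h1 := pol_derivative_eval b 1
    rw [h0, Polynomial.eval_zero] at h1
    exact crit_le_one hd hb (by rw [norm_one]) h1.symm
  refine ⟨(pol d b).derivative.roots.toFinset, ?_, ?_⟩
  · refine (Multiset.toFinset_card_le _).trans ((Polynomial.card_roots' _).trans ?_)
    refine (Polynomial.natDegree_derivative_le _).trans ?_
    have := pol_natDegree b
    omega
  · intro ω hω
    rw [Multiset.mem_toFinset, Polynomial.mem_roots hP, Polynomial.IsRoot.def,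
      pol_derivative_eval]
    exact hω

theorem dF_add_single (b : Fin (d + 1) → ℂ) (t z : ℂ) :
    dF d (b + Pi.single 0 t) z = dF d b z := by
  unfold dF
  congr 1
  refine Finset.sum_congr rfl fun i _ => ?_
  by_cases hi : i = 0
  · subst hi
    simp
  · simp [Pi.single_eq_of_ne hi]

theorem FF_add_single (b : Fin (d + 1) → ℂ) (t z : ℂ) :
    FF d (b + Pi.single 0 t) z = FF d b z + t := by
  have h1 := FF_sub_FF (b + Pi.single 0 t) b z
  rw [add_sub_cancel_left] at h1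
  have h2 : ∑ i : Fin (d + 1), (Pi.single 0 t : Fin (d + 1) → ℂ) i * z ^ (i : ℕ) = t := by
    have h3 := sum_ee d t fun i => z ^ (i : ℕ)
    unfold ee at h3
    rw [h3]
    simp
  rw [h2] at h1
  linear_combination h1

theorem norm_add_single_sub (b : Fin (d + 1) → ℂ) (c₀ t : ℂ) :
    ‖b + Pi.single 0 t - ee d c₀‖ ≤ ‖b - ee d c₀‖ + ‖t‖ := by
  have h := norm_add_le (b - ee d c₀) (Pi.single 0 t : Fin (d + 1) → ℂ)
  rw [norm_single, sub_add_eq_add_sub] at h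
  exact h

/-- **The area of the non-escaping polynomials in a translation family.** -/
theorem area_family (hd : 2 ≤ d) (hc : ‖c₀‖ < 2) {E : ℝ} (hA : AR d c₀ E) :
    ∃ C ε : ℝ, 0 < C ∧ 0 < ε ∧ ∀ r : ℝ, 0 < r → r ≤ ε → ∀ b : Fin (d + 1) → ℂ,
      ‖b - ee d c₀‖ ≤ r →
        volume {t : ℂ | ‖t‖ ≤ r ∧ b + Pi.single 0 t ∈ NE d} ≤ ENNReal.ofReal (C * r ^ E) := by
  classical
  have hdR : (2 : ℝ) ≤ d := by exact_mod_cast hd
  have hK1 := one_le_Kd d
  have hK0 := Kd_pos d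
  obtain ⟨C, ε, hC, hε, H⟩ := hA
  set K : ℝ := 2 * Kd d + 1 with hK
  have hK3 : 3 ≤ K := by linarith
  have hKp : 0 < K := by linarith
  set ε' : ℝ := min (ε / K) (min ((2 - ‖c₀‖) / (16 * ((d : ℝ) + 1))) (1 / ((d : ℝ) + 1) ^ 2)) with hε'
  have h2c : 0 < 2 - ‖c₀‖ := by linarith
  have hε'0 : 0 < ε' := lt_min (by positivity) (lt_min (by positivity) (by positivity))
  refine ⟨d * (C * K ^ E), ε', by positivity, hε'0, ?_⟩
  intro r hr hrε b hb
  have hr1 : K * r ≤ ε := by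
    have h1 : r ≤ ε / K := hrε.trans (min_le_left _ _)
    rw [le_div_iff₀ hKp] at h1
    linarith
  have hr2 : r * (16 * ((d : ℝ) + 1)) ≤ 2 - ‖c₀‖ := by
    have h1 : r ≤ (2 - ‖c₀‖) / (16 * ((d : ℝ) + 1)) :=
      hrε.trans ((min_le_right _ _).trans (min_le_left _ _))
    rwa [le_div_iff₀ (by positivity)] at h1
  have hr3 : r * ((d : ℝ) + 1) ^ 2 ≤ 1 := by
    have h1 : r ≤ 1 / ((d : ℝ) + 1) ^ 2 :=
      hrε.trans ((min_le_right _ _).trans (min_le_right _ _))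
    rwa [le_div_iff₀ (by positivity)] at h1
  have hb3 : ‖b - ee d c₀‖ * ((d : ℝ) + 1) ^ 2 ≤ 1 := by
    refine le_trans ?_ hr3
    gcongr
  obtain ⟨F, hFc, hF⟩ := crit_finset hd hb3
  have hsub : {t : ℂ | ‖t‖ ≤ r ∧ b + Pi.single 0 t ∈ NE d} ⊆ ⋃ ω ∈ F.filter (fun ω => dF d b ω = 0),
      (fun t => FF d b ω + t) ⁻¹' (BB d (Ln d b (FF d b ω)) ∩ closedBall c₀ (K * r)) := by
    rintro t ⟨ht, ω, hω, hne⟩
    rw [dF_add_single] at hω
    rw [mem_iUnion₂]
    refine ⟨ω, Finset.mem_filter.mpr ⟨hF ω hω, hω⟩, ?_, ?_⟩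
    · -- bounded orbit
      have hbt : ‖b + Pi.single 0 t - ee d c₀‖ * (8 * ((d : ℝ) + 1)) ≤ 2 - ‖c₀‖ := by
        have h1 : ‖b + Pi.single 0 t - ee d c₀‖ ≤ 2 * r := by
          have h2 := norm_add_single_sub b c₀ t
          linarith
        calc ‖b + Pi.single 0 t - ee d c₀‖ * (8 * ((d : ℝ) + 1)) ≤ (2 * r) * (8 * ((d : ℝ) + 1)) := by
              gcongr
          _ = r * (16 * ((d : ℝ) + 1)) := by ring
          _ ≤ _ := hr2
      have hbd : ∀ n, ‖(FF d (b + Pi.single 0 t))^[n] ω‖ ≤ 2 := by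
        intro n
        by_contra hcon
        exact hne (esc hd hc hbt (not_le.mp hcon))
      intro n
      have h1 := hbd (n + 1)
      rw [Function.iterate_succ_apply, FF_add_single] at h1
      have h2 : Ln d b (FF d b ω) (FF d b ω + t) = b + Pi.single 0 t := by
        unfold Ln
        rw [add_sub_cancel_left]
      show ‖(FF d (Ln d b (FF d b ω) (FF d b ω + t)))^[n] (FF d b ω + t)‖ ≤ 2
      rw [h2]
      exact h1
    · rw [mem_closedBall, dist_eq_norm]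
      have h1 := crit_value hd hb3 hω
      calc ‖FF d b ω + t - c₀‖ = ‖(FF d b ω - c₀) + t‖ := by congr 1; ring
        _ ≤ ‖FF d b ω - c₀‖ + ‖t‖ := norm_add_le _ _
        _ ≤ 2 * Kd d * r + r := by
            refine add_le_add (h1.trans ?_) ht
            gcongr
        _ = K * r := by rw [hK]; ring
  refine (measure_mono hsub).trans ((measure_biUnion_finset_le _ _).trans ?_)
  have hone : ∀ ω ∈ F.filter (fun ω => dF d b ω = 0),
      volume ((fun t => FF d b ω + t) ⁻¹' (BB d (Ln d b (FF d b ω)) ∩ closedBall c₀ (K * r))) ≤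
        ENNReal.ofReal (C * K ^ E * r ^ E) := by
    intro ω hω
    rw [Finset.mem_filter] at hω
    rw [measure_preimage_add]
    have h1 := crit_value hd hb3 hω.2
    refine (H (K * r) (by positivity) hr1 b (FF d b ω) (hb.trans ?_) (h1.trans ?_)).trans (le_of_eq ?_)
    · nlinarith
    · calc 2 * Kd d * ‖b - ee d c₀‖ ≤ 2 * Kd d * r := by gcongr
        _ ≤ K * r := by
            rw [hK]
            nlinarith
    · rw [Real.mul_rpow hKp.le hr.le, mul_assoc]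
  calc ∑ ω ∈ F.filter (fun ω => dF d b ω = 0),
        volume ((fun t => FF d b ω + t) ⁻¹' (BB d (Ln d b (FF d b ω)) ∩ closedBall c₀ (K * r)))
      ≤ ∑ _ω ∈ F.filter (fun ω => dF d b ω = 0), ENNReal.ofReal (C * K ^ E * r ^ E) :=
        Finset.sum_le_sum hone
    _ = ((F.filter (fun ω => dF d b ω = 0)).card : ENNReal) *
          ENNReal.ofReal (C * K ^ E * r ^ E) := by
        rw [Finset.sum_const, nsmul_eq_mul]
    _ ≤ (d : ENNReal) * ENNReal.ofReal (C * K ^ E * r ^ E) := by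
        gcongr
        exact_mod_cast (Finset.card_filter_le _ _).trans hFc
    _ = ENNReal.ofReal (d * (C * K ^ E) * r ^ E) := by
        rw [← ENNReal.ofReal_natCast, ← ENNReal.ofReal_mul (by positivity)]
        congr 1
        ring

end Pool.Agent.Y272.GA
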