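import Mathlib
import Pool.Agent.Y272.GA.Fam
import Pool.Agent.Y362.GA.Fub

/-!
# The volume in the space of polynomials; small perturbations
-/

set_option autoImplicit false

open Set Filter Metric MeasureTheory

namespace Pool.Agent.Y272.GA

open Pool.Agent.Y298.CA (Lyap)

variable {d : ℕ} {c₀ : ℂ}

/-- **The volume of the non-escaping polynomials.** -/
theorem vol_all (hclo : S_CLO) (hd : 2 ≤ d) (hc : ‖c₀‖ < 2) {E : ℝ} (hA : AR d c₀ (2 + E)) :
    ∃ C ε : ℝ, 0 < C ∧ 0 < ε ∧ ∀ r : ℝ, 0 < r → r ≤ ε →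
      volume (NE d ∩ closedBall (ee d c₀) r) ≤
        ENNReal.ofReal (C * r ^ E) * volume (closedBall (ee d c₀) r) := by
  have hdR : (2 : ℝ) ≤ d := by exact_mod_cast hd
  have hd1 : 0 < (d : ℝ) - 1 := by linarith
  obtain ⟨C, ε, hC, hε, H⟩ := area_family hd hc hA
  obtain ⟨ρ₁, hρ₁, H1⟩ := hclo d c₀ hd hc
  refine ⟨C / Real.pi, min ε ρ₁, by positivity, lt_min hε hρ₁, ?_⟩
  intro r hr hrε
  have hS := (H1 r (hrε.trans (min_le_right _ _))).measurableSet
  have h1 := Pool.Agent.Y362.GA.t d (ee d c₀) r (NE d ∩ closedBall (ee d c₀) r)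
    (ENNReal.ofReal (C * r ^ (2 + E))) hr hS inter_subset_right (by
    intro b hb hb0
    rw [mem_closedBall, dist_eq_norm] at hb
    refine le_trans (measure_mono ?_) (H r hr (hrε.trans (min_le_left _ _)) b hb)
    rintro t ⟨ht1, ht2⟩
    refine ⟨?_, ht1⟩
    rw [mem_closedBall, dist_eq_norm] at ht2
    have h2 := (norm_le_pi_norm (b + Pi.single 0 t - ee d c₀) 0).trans ht2
    rwa [Pi.sub_apply, Pi.add_apply, Pi.single_eq_same, hb0, add_sub_cancel_left] at h2)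
  have hpr : 0 < Real.pi * r ^ 2 := by positivity
  have h2 : volume (closedBall (0 : ℂ) r) = ENNReal.ofReal (Real.pi * r ^ 2) :=
    Pool.Agent.Y298.CA.vol_cb' 0 hr.le
  rw [h2] at h1
  have h3 : ENNReal.ofReal (Real.pi * r ^ 2) * ENNReal.ofReal (1 / (Real.pi * r ^ 2)) = 1 := by
    rw [← ENNReal.ofReal_mul hpr.le, mul_one_div, div_self hpr.ne', ENNReal.ofReal_one]
  calc volume (NE d ∩ closedBall (ee d c₀) r)
      = volume (NE d ∩ closedBall (ee d c₀) r) * ENNReal.ofReal (Real.pi * r ^ 2) *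
          ENNReal.ofReal (1 / (Real.pi * r ^ 2)) := by rw [mul_assoc, h3, mul_one]
    _ ≤ ENNReal.ofReal (C * r ^ (2 + E)) * volume (closedBall (ee d c₀) r) *
          ENNReal.ofReal (1 / (Real.pi * r ^ 2)) := by gcongr
    _ = (ENNReal.ofReal (C * r ^ (2 + E)) * ENNReal.ofReal (1 / (Real.pi * r ^ 2))) *
          volume (closedBall (ee d c₀) r) := by ring
    _ = _ := by
        rw [← ENNReal.ofReal_mul (by positivity)]
        congr 2
        rw [Real.rpow_add hr, Real.rpow_two]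
        field_simp

/-- **Small perturbations of the constant term.** -/
theorem sigma_all (hd : 2 ≤ d) (hc : ‖c₀‖ < 2) {σ E : ℝ} (hσ1 : 1 ≤ σ) (hσ : 2 * σ < E)
    (hA : AR d c₀ E) :
    ∃ ε : ℝ, 0 < ε ∧ ∀ r : ℝ, 0 < r → r ≤ ε → ∀ b : Fin (d + 1) → ℂ, ‖b - ee d c₀‖ ≤ r →
      ∃ t : ℂ, ‖t‖ ≤ r ^ σ ∧ b + Pi.single 0 t ∉ NE d := by
  obtain ⟨C, ε, hC, hε, H⟩ := area_family hd hc hA
  set q : ℝ := E - 2 * σ with hq
  have hq0 : 0 < q := by linarith
  set ε' : ℝ := min (min ε 1) ((1 / C) ^ q⁻¹) with hε'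
  have hε'0 : 0 < ε' := lt_min (lt_min hε one_pos) (Real.rpow_pos_of_pos (by positivity) _)
  refine ⟨ε', hε'0, ?_⟩
  intro r hr hrε b hb
  have hr1 : r ≤ 1 := hrε.trans ((min_le_left _ _).trans (min_le_right _ _))
  have hrC : C * r ^ q ≤ 1 := by
    have h1 : r ^ q ≤ ((1 / C) ^ q⁻¹) ^ q :=
      Real.rpow_le_rpow hr.le (hrε.trans (min_le_right _ _)) hq0.le
    rw [← Real.rpow_mul (by positivity), inv_mul_cancel₀ hq0.ne', Real.rpow_one] at h1
    calc C * r ^ q ≤ C * (1 / C) := by gcongr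
      _ = 1 := by field_simp
  have hrσ : r ^ σ ≤ r := by
    calc r ^ σ ≤ r ^ (1 : ℝ) := Real.rpow_le_rpow_of_exponent_ge hr hr1 hσ1
      _ = r := Real.rpow_one r
  have hrσ0 : 0 < r ^ σ := Real.rpow_pos_of_pos hr _
  by_contra hcon
  push Not at hcon
  have h1 : closedBall (0 : ℂ) (r ^ σ) ⊆ {t : ℂ | ‖t‖ ≤ r ∧ b + Pi.single 0 t ∈ NE d} := by
    intro t ht
    rw [mem_closedBall_zero_iff] at ht
    exact ⟨ht.trans hrσ, hcon t ht⟩
  have h2 := (measure_mono h1).trans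
    (H r hr (hrε.trans ((min_le_left _ _).trans (min_le_left _ _))) b hb)
  rw [Pool.Agent.Y298.CA.vol_cb' 0 hrσ0.le, ENNReal.ofReal_le_ofReal_iff (by positivity)] at h2
  have h3 : C * r ^ E = (C * r ^ q) * (r ^ σ) ^ 2 := by
    rw [← Real.rpow_natCast (r ^ σ) 2, ← Real.rpow_mul hr.le, mul_assoc, ← Real.rpow_add hr]
    congr 2
    rw [hq]
    push_cast
    ring
  rw [h3] at h2
  have h4 : (C * r ^ q) * (r ^ σ) ^ 2 ≤ 1 * (r ^ σ) ^ 2 := by gcongr
  have h5 := Real.pi_gt_three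
  have h6 : 0 < (r ^ σ) ^ 2 := by positivity
  nlinarith

end Pool.Agent.Y272.GA
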