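import Mathlib
import Pool.Prelude.Def_F_c31e40fa
import Pool.Agent.Y272.GA.Vol
import Pool.Agent.Y574.GA.Clo
import Pool.Agent.Y298.CA.ScaAll

/-!
# Bridge to the language of polynomials
-/

set_option autoImplicit false

open Set Filter Metric MeasureTheory Polynomial

namespace Pool.Agent.Y272.GA

open Pool.Agent.TH279.MD (f)
open Pool.Agent.Y298.CA (Lyap Scal)

variable {d : ℕ} {c₀ : ℂ}

/-- all critical points escape -/
def SL (T : ℂ[X]) : Prop := ∀ c : ℂ, T.derivative.eval c = 0 →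
  Tendsto (fun k : ℕ => ‖(fun z : ℂ => T.eval z)^[k] c‖) atTop atTop

/-- the coefficients of the perturbation -/
noncomputable def bb (d : ℕ) (T : ℂ[X]) : Fin (d + 1) → ℂ :=
  fun i => T.coeff i - (X ^ d : ℂ[X]).coeff i

theorem sum_X_pow (d : ℕ) (z : ℂ) :
    ∑ i : Fin (d + 1), (X ^ d : ℂ[X]).coeff (i : ℕ) * z ^ (i : ℕ) = z ^ d := by
  rw [Finset.sum_eq_single (Fin.last d)]
  · simp
  · intro i _ hi
    have h1 : (i : ℕ) ≠ d := by
      intro h
      apply hi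
      exact Fin.ext (by simpa using h)
    rw [coeff_X_pow, if_neg h1, zero_mul]
  · intro h
    exact absurd (Finset.mem_univ _) h

theorem pol_bb {T : ℂ[X]} (hT : T.natDegree ≤ d) : pol d (bb d T) = T := by
  apply Polynomial.funext
  intro z
  rw [pol_eval]
  unfold FF bb
  rw [Polynomial.eval_eq_sum_range' (Nat.lt_succ_of_le hT), Finset.sum_range]
  simp only [sub_mul, Finset.sum_sub_distrib]
  rw [sum_X_pow]
  ring

theorem SL_pol (b : Fin (d + 1) → ℂ) : SL (pol d b) ↔ b ∉ NE d := by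
  have h1 : (fun z : ℂ => (pol d b).eval z) = FF d b := funext (pol_eval b)
  unfold SL NE
  rw [h1]
  simp only [pol_derivative_eval, Set.mem_ofPred_eq, not_exists, not_and, not_not]

theorem pol_add_C (b : Fin (d + 1) → ℂ) (t : ℂ) : pol d b + C t = pol d (b + Pi.single 0 t) := by
  apply Polynomial.funext
  intro z
  rw [eval_add, eval_C, pol_eval, pol_eval, FF_add_single]

theorem bb_sub_ee (T : ℂ[X]) (i : Fin (d + 1)) :
    (bb d T - ee d c₀) i = T.coeff i - (X ^ d + C c₀ : ℂ[X]).coeff i := by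
  have h1 : ee d c₀ i = (C c₀ : ℂ[X]).coeff i := by
    by_cases hi : i = 0
    · subst hi
      rw [ee_zero]
      simp
    · rw [ee_ne d c₀ hi, coeff_C, if_neg]
      intro h
      exact hi (Fin.ext (by simpa using h))
  rw [Pi.sub_apply, h1, coeff_add]
  unfold bb
  ring

theorem norm_bb {T : ℂ[X]} {r : ℝ} (hr : 0 ≤ r)
    (h : ∀ i : ℕ, ‖T.coeff i - (X ^ d + C c₀ : ℂ[X]).coeff i‖ ≤ r) : ‖bb d T - ee d c₀‖ ≤ r := by
  rw [pi_norm_le_iff_of_nonneg hr]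
  intro i
  rw [bb_sub_ee]
  exact h i

/-- the norm of the points of the Multibrot set -/
theorem norm_lt_two (hd : 2 ≤ d) (hc : c₀ ∈ N62a1eb23.multibrotSet d)
    (h : d = 2 → c₀ ≠ -2) : ‖c₀‖ < 2 := by
  have hM := (Pool.Agent.H712R2.mem_multibrot_iff hd c₀).mp hc
  have h2 := hM 2
  have hP1 : Pool.Agent.H712R2.P d 1 c₀ = c₀ := Pool.Agent.H712R2.P_one hd c₀
  have hP2 : Pool.Agent.H712R2.P d 2 c₀ = c₀ ^ d + c₀ := by
    rw [show (2 : ℕ) = 1 + 1 from rfl, Pool.Agent.H712R2.P_succ, hP1]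
  have h1 : ‖c₀‖ ≤ 2 := by
    have := hM 1
    rwa [hP1] at this
  rw [hP2] at h2
  by_contra hcon
  have h3 : ‖c₀‖ = 2 := le_antisymm h1 (not_lt.mp hcon)
  rcases Nat.lt_or_ge 2 d with h4 | h4
  · have h5 : ‖c₀ ^ d‖ ≤ ‖c₀ ^ d + c₀‖ + ‖c₀‖ := by
      have := norm_sub_le (c₀ ^ d + c₀) c₀
      rwa [add_sub_cancel_right] at this
    rw [norm_pow, h3] at h5
    have h6 : (2 : ℝ) ^ 3 ≤ 2 ^ d := pow_le_pow_right₀ (by norm_num) (by omega)
    linarith
  · have hd2 : d = 2 := le_antisymm h4 hd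
    subst hd2
    have h5 : c₀ ^ 2 + c₀ = c₀ * (c₀ + 1) := by ring
    rw [h5, norm_mul, h3] at h2
    have h6 : ‖c₀ + 1‖ ≤ 1 := by linarith
    have h7 : ‖c₀‖ ^ 2 = c₀.re ^ 2 + c₀.im ^ 2 := by
      rw [← Complex.normSq_eq_norm_sq, Complex.normSq_apply]
      ring
    have h8 : ‖c₀ + 1‖ ^ 2 = (c₀.re + 1) ^ 2 + c₀.im ^ 2 := by
      rw [← Complex.normSq_eq_norm_sq, Complex.normSq_apply]
      simp
      ring
    have h9 : ‖c₀ + 1‖ ^ 2 ≤ 1 := by
      have := norm_nonneg (c₀ + 1)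
      nlinarith
    rw [h3] at h7
    have h10 : c₀.re ≤ -2 := by nlinarith
    have h11 : c₀.im ^ 2 ≤ 0 := by nlinarith
    have h12 : c₀.im = 0 := by nlinarith [sq_nonneg c₀.im]
    have h13 : c₀.re = -2 := by
      rw [h12] at h7
      nlinarith
    exact h rfl (Complex.ext (by simpa using h13) (by simpa using h12))

/-- **Translation families.** -/
theorem st_area (hd : 2 ≤ d) (hc : ‖c₀‖ < 2) {E : ℝ} (hA : AR d c₀ E) :
    ∃ K r₀ : ℝ, 0 < K ∧ 0 < r₀ ∧ ∀ r : ℝ, 0 < r → r ≤ r₀ → ∀ T : ℂ[X], T.natDegree ≤ d →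
      (∀ i : ℕ, ‖T.coeff i - (X ^ d + C c₀ : ℂ[X]).coeff i‖ ≤ r) →
        volume {t : ℂ | ‖t‖ ≤ r ∧ ¬ SL (T + C t)} ≤ ENNReal.ofReal (K * r ^ E) := by
  obtain ⟨K, r₀, hK, hr₀, H⟩ := area_family hd hc hA
  refine ⟨K, r₀, hK, hr₀, ?_⟩
  intro r hr hrr T hT hcl
  refine le_trans (measure_mono ?_) (H r hr hrr (bb d T) (norm_bb hr.le hcl))
  rintro t ⟨ht, hne⟩
  refine ⟨ht, ?_⟩
  rw [← pol_bb hT, pol_add_C, SL_pol, not_not] at hne
  exact hne

/-- **Small perturbations.** -/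
theorem st_sigma (hd : 2 ≤ d) (hc : ‖c₀‖ < 2) {σ E : ℝ} (hσ1 : 1 ≤ σ) (hσ : 2 * σ < E)
    (hA : AR d c₀ E) :
    ∃ r₀ : ℝ, 0 < r₀ ∧ ∀ r : ℝ, 0 < r → r ≤ r₀ → ∀ T : ℂ[X], T.natDegree ≤ d →
      (∀ i : ℕ, ‖T.coeff i - (X ^ d + C c₀ : ℂ[X]).coeff i‖ ≤ r) →
        ∃ t : ℂ, ‖t‖ ≤ r ^ σ ∧ SL (T + C t) := by
  obtain ⟨r₀, hr₀, H⟩ := sigma_all hd hc hσ1 hσ hA
  refine ⟨r₀, hr₀, ?_⟩
  intro r hr hrr T hT hcl
  obtain ⟨t, ht1, ht2⟩ := H r hr hrr (bb d T) (norm_bb hr.le hcl)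
  refine ⟨t, ht1, ?_⟩
  rw [← pol_bb hT, pol_add_C, SL_pol]
  exact ht2

/-- the coefficients of `X ^ d` -/
noncomputable def xx (d : ℕ) : Fin (d + 1) → ℂ := fun i => (X ^ d : ℂ[X]).coeff i

theorem poly_eq (a : Fin (d + 1) → ℂ) :
    ∑ i : Fin (d + 1), C (a i) * X ^ (i : ℕ) = pol d (a - xx d) := by
  apply Polynomial.funext
  intro z
  rw [pol_eval]
  unfold FF xx
  simp only [Pi.sub_apply, sub_mul, Finset.sum_sub_distrib]
  rw [sum_X_pow]
  simp [Polynomial.eval_finsetSum]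

/-- the box of coefficients -/
def Bx (d : ℕ) (c₀ : ℂ) (r : ℝ) : Set (Fin (d + 1) → ℂ) :=
  {a | ∀ i : Fin (d + 1), ‖a i - (X ^ d + C c₀ : ℂ[X]).coeff i‖ ≤ r}

theorem mem_Bx {r : ℝ} (hr : 0 ≤ r) (a : Fin (d + 1) → ℂ) :
    a ∈ Bx d c₀ r ↔ a - xx d ∈ closedBall (ee d c₀) r := by
  rw [mem_closedBall, dist_eq_norm, pi_norm_le_iff_of_nonneg hr]
  have h : ∀ i : Fin (d + 1), (a - xx d - ee d c₀) i = a i - (X ^ d + C c₀ : ℂ[X]).coeff i := by
    intro i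
    have h1 := bb_sub_ee (c₀ := c₀) (0 : ℂ[X]) i
    unfold bb at h1
    rw [Pi.sub_apply] at h1
    rw [Pi.sub_apply, Pi.sub_apply]
    unfold xx
    simp only [coeff_zero, zero_sub] at h1
    linear_combination h1
  simp only [h]
  rfl

/-- **The volume in the space of coefficients.** -/
theorem st_vol (hd : 2 ≤ d) (hc : ‖c₀‖ < 2) {E : ℝ} (hA : AR d c₀ (2 + E)) :
    ∃ K r₀ : ℝ, 0 < K ∧ 0 < r₀ ∧ ∀ r : ℝ, 0 < r → r ≤ r₀ →
      volume {a | a ∈ Bx d c₀ r ∧ ¬ SL (∑ i : Fin (d + 1), C (a i) * X ^ (i : ℕ))} ≤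
        ENNReal.ofReal (K * r ^ E) * volume (Bx d c₀ r) := by
  obtain ⟨K, r₀, hK, hr₀, H⟩ := vol_all Pool.Agent.Y574.GA.t hd hc hA
  refine ⟨K, r₀, hK, hr₀, ?_⟩
  intro r hr hrr
  have h1 : {a | a ∈ Bx d c₀ r ∧ ¬ SL (∑ i : Fin (d + 1), C (a i) * X ^ (i : ℕ))} =
      (fun a => a + -xx d) ⁻¹' (NE d ∩ closedBall (ee d c₀) r) := by
    ext a
    rw [mem_preimage, Set.mem_ofPred_eq, mem_Bx hr.le, poly_eq, SL_pol, not_not, ← sub_eq_add_neg]
    exact and_comm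
  have h2 : Bx d c₀ r = (fun a => a + -xx d) ⁻¹' (closedBall (ee d c₀) r) := by
    ext a
    rw [mem_preimage, mem_Bx hr.le, ← sub_eq_add_neg]
  rw [h1, h2, measure_preimage_add_right, measure_preimage_add_right]
  exact H r hr hrr

/-- the polynomial `z ^ d + c` is in the shift locus iff `c` is outside the Multibrot set -/
theorem SL_uni (hd : 2 ≤ d) (c : ℂ) : SL (X ^ d + C c : ℂ[X]) ↔ c ∉ N62a1eb23.multibrotSet d := by
  have h1 : (fun z : ℂ => (X ^ d + C c : ℂ[X]).eval z) = fun z => z ^ d + c := by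
    funext z
    simp
  have h2 : ∀ z : ℂ, (X ^ d + C c : ℂ[X]).derivative.eval z = 0 ↔ z = 0 := by
    intro z
    have h3 : (X ^ d + C c : ℂ[X]).derivative.eval z = d * z ^ (d - 1) := by
      rw [derivative_add, derivative_X_pow, derivative_C, add_zero, eval_mul, eval_pow, eval_X,
        eval_C]
    rw [h3, mul_eq_zero, pow_eq_zero_iff (by omega)]
    constructor
    · rintro (h | h)
      · exact absurd (by exact_mod_cast h : d = 0) (by omega)
      · exact h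
    · exact Or.inr
  unfold SL N62a1eb23.multibrotSet
  rw [h1, Set.mem_ofPred_eq, not_not, ← tendsto_norm_atTop_iff_cobounded]
  constructor
  · intro h
    exact h 0 ((h2 0).mpr rfl)
  · intro h z hz
    rw [(h2 z).mp hz]
    exact h

/-- **Optimality.** -/
theorem st_opt (hd : 2 ≤ d) {χ : ℝ} (h : Lyap d χ c₀) :
    Tendsto (fun r : ℝ => Real.log (volume {t : ℂ | ‖t‖ < r ∧
      ¬ SL (X ^ d + C (c₀ + t) : ℂ[X])}).toReal / Real.log r) (nhdsWithin 0 (Ioi 0))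
      (nhds (2 * d / ((d : ℝ) - 1))) := by
  have h1 : ∀ r : ℝ, volume {t : ℂ | ‖t‖ < r ∧ ¬ SL (X ^ d + C (c₀ + t) : ℂ[X])} =
      volume (N62a1eb23.multibrotSet d ∩ ball c₀ r) := by
    intro r
    have h2 : {t : ℂ | ‖t‖ < r ∧ ¬ SL (X ^ d + C (c₀ + t) : ℂ[X])} =
        (fun t => c₀ + t) ⁻¹' (N62a1eb23.multibrotSet d ∩ ball c₀ r) := by
      ext t
      rw [Set.mem_ofPred_eq, mem_preimage, mem_inter_iff, mem_ball, dist_eq_norm, add_sub_cancel_left,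
        SL_uni hd, not_not]
      exact and_comm
    rw [h2, measure_preimage_add]
  simp only [h1]
  exact (Pool.Agent.Y298.CA.scal_all hd h).areaM

/-- the Lyapunov exponent at the parameter `-2` is `log 4` -/
theorem lyap_neg_two {χ : ℝ} (h : Lyap 2 χ (-2)) : χ = Real.log 4 := by
  obtain ⟨-, -, hlim⟩ := h
  have h1 : ∀ n : ℕ, (f 2 (-2))^[n] (-2) = -2 ∨ (f 2 (-2))^[n] (-2) = 2 := by
    intro n
    induction n with
    | zero => exact Or.inl rfl
    | succ n ih =>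
      right
      rw [Function.iterate_succ_apply', f_apply]
      rcases ih with h | h
      · rw [h]; norm_num
      · rw [h]; norm_num
  have h2 : ∀ n : ℕ, ‖deriv ((f 2 (-2))^[n]) (-2)‖ = 4 ^ n := by
    intro n
    induction n with
    | zero => simp
    | succ n ih =>
      have h3 := deriv_FFn_succ (d := 2) (ee 2 (-2)) n (-2)
      rw [FF_ee', dF_ee] at h3
      rw [h3, norm_mul, ih]
      rcases h1 n with h | h
      · rw [h]; norm_num; ring
      · rw [h]; norm_num; ring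
  have h3 : Tendsto (fun n : ℕ => Real.log ‖deriv ((f 2 (-2))^[n]) (-2)‖ / n) atTop
      (nhds (Real.log 4)) := by
    refine tendsto_const_nhds.congr' ?_
    filter_upwards [eventually_gt_atTop 0] with n hn
    have hn0 : (n : ℝ) ≠ 0 := by positivity
    rw [h2, Real.log_pow]
    field_simp
  exact tendsto_nhds_unique hlim h3

end Pool.Agent.Y272.GA
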