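import Mathlib
import Pool.Agent.Y298.CA.ScaAll

/-!
# Area of Julia sets: statements
-/

set_option autoImplicit false

open Set Filter Metric MeasureTheory Topology Polynomial

namespace Pool.Agent.Y272.GA

/-- The filled Julia set of a polynomial in the shift locus has zero area. -/
def S_ZERO : Prop := ∀ T : ℂ[X], 2 ≤ T.natDegree →
  (∀ c : ℂ, T.derivative.eval c = 0 →
    Tendsto (fun k : ℕ => ‖(fun z : ℂ => T.eval z)^[k] c‖) atTop atTop) →
  volume {z : ℂ | ¬ Tendsto (fun k : ℕ => ‖(fun z : ℂ => T.eval z)^[k] z‖) atTop atTop} = 0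

/-- Filled Julia sets of large area near parameters with a positive Lyapunov exponent. -/
def S_OPT : Prop := ∀ (d : ℕ) (χ : ℝ) (c₀ : ℂ), 2 ≤ d → Pool.Agent.Y298.CA.Lyap d χ c₀ →
  ∀ ε : ℝ, 0 < ε → ∀ᶠ r : ℝ in 𝓝[>] 0, ∃ c ∈ ball c₀ r,
    ENNReal.ofReal (r ^ (2 / ((d : ℝ) - 1) + ε)) ≤
      volume {z : ℂ | ¬ Tendsto (fun k : ℕ => ‖(fun z : ℂ => z ^ d + c)^[k] z‖) atTop atTop}

end Pool.Agent.Y272.GA
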