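import Mathlib
import Pool.Agent.Y272.GA.Brg

/-!
# The area of the filled Julia sets of all polynomials near a Collet-Eckmann unicritical one
-/

set_option autoImplicit false

open Set Filter Metric MeasureTheory

namespace Pool.Agent.Y272.GA

open Pool.Agent.TH279.MD Pool.Agent.Y298.SH Pool.Agent.Y298.SH.CD
open Pool.Agent.Y298.CA (Lyap rec_of_lya)

variable {d : ℕ} {C₁ lam C₂ β : ℝ} {c₀ : ℂ}

/-- the points with bounded orbit -/
def KK (d : ℕ) (b : Fin (d + 1) → ℂ) : Set ℂ := {z | ∀ n, ‖(FF d b)^[n] z‖ ≤ 2}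

/-- the bounded orbits in terms of the supremum over the slow curves -/
theorem KK_le_SS : ∃ N₀ : ℝ, 0 < N₀ ∧ ∀ (d : ℕ) (c₀ : ℂ) (s κ : ℝ) (b : Fin (d + 1) → ℂ), 0 ≤ κ →
    Kd d * ‖b - ee d c₀‖ ≤ s →
      volume (KK d b) ≤ ENNReal.ofReal N₀ * SS d c₀ s κ := by
  obtain ⟨F, -, hF⟩ := (isCompact_closedBall (0 : ℂ) 2).elim_nhds_subcover
    (fun u => ball u (1 / 2)) (fun u _ => ball_mem_nhds u (by norm_num))
  refine ⟨F.card + 1, by positivity, ?_⟩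
  intro d c₀ s κ b hκ hb
  have hone : ∀ u ∈ F, volume (KK d b ∩ ball u (1 / 2)) ≤ SS d c₀ s κ := by
    intro u _
    have hCv : Cv d c₀ s κ u 1 (fun _ => b) :=
      { hol := differentiableOn_const b
        near := fun _ _ => hb
        slow := fun w _ => by
          rw [deriv_const, norm_zero, mul_zero]
          exact hκ }
    have h1 := le_SS (one_pos) le_rfl hCv
    exact h1
  have hsub : KK d b ⊆ ⋃ u ∈ F, (KK d b ∩ ball u (1 / 2)) := by
    intro z hz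
    have h1 : z ∈ closedBall (0 : ℂ) 2 := by
      rw [mem_closedBall_zero_iff]
      exact hz 0
    have h2 := hF h1
    rw [mem_iUnion₂] at h2 ⊢
    obtain ⟨u, hu, hzu⟩ := h2
    exact ⟨u, hu, hz, hzu⟩
  calc volume (KK d b) ≤ volume (⋃ u ∈ F, (KK d b ∩ ball u (1 / 2))) := measure_mono hsub
    _ ≤ ∑ u ∈ F, volume (KK d b ∩ ball u (1 / 2)) := measure_biUnion_finset_le _ _
    _ ≤ ∑ _u ∈ F, SS d c₀ s κ := Finset.sum_le_sum hone
    _ = (F.card : ENNReal) * SS d c₀ s κ := by rw [Finset.sum_const, nsmul_eq_mul]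
    _ ≤ ENNReal.ofReal (F.card + 1) * SS d c₀ s κ := by
        gcongr
        rw [← ENNReal.ofReal_natCast]
        exact ENNReal.ofReal_le_ofReal (by linarith)

/-- **The area of the filled Julia sets.** -/
theorem area_KK (h : CEp d C₁ lam c₀) (hrec : Rec d C₂ β c₀) (hC₂ : 0 < C₂)
    (hβ : 0 ≤ β) {t : ℝ} (ht0 : 0 ≤ t) (ht : t * (1 + β) < 1) :
    ∃ C ε : ℝ, 0 < C ∧ 0 < ε ∧ ∀ r : ℝ, 0 < r → r ≤ ε →
      ∀ b : Fin (d + 1) → ℂ, ‖b - ee d c₀‖ ≤ r →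
        volume (KK d b) ≤ ENNReal.ofReal (C * r ^ (t * (2 / ((d : ℝ) - 1)))) := by
  have hd := h.hd
  have hdR : (2 : ℝ) ≤ d := by exact_mod_cast hd
  have hd1 : 0 < (d : ℝ) - 1 := by linarith
  have hl := h.lam1
  have hl0 : 0 < lam := by linarith
  have hC1 := h.C1
  have hKd := Kd_pos d
  have hloglam : 0 < Real.log lam := Real.log_pos hl
  have hlog2 : 0 < Real.log 2 := Real.log_pos (by norm_num)
  -- the exponent `ω`
  set ω : ℝ := min (1 / (3 * d)) (min (Real.log 2 / Real.log lam) (1 - t * (1 + β))) with hω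
  have hω0 : 0 < ω := by
    refine lt_min (by positivity) (lt_min (by positivity) (by linarith))
  have hω1 : ω ≤ 1 / (3 * d) := min_le_left _ _
  have hω2 : ω ≤ Real.log 2 / Real.log lam := (min_le_right _ _).trans (min_le_left _ _)
  have hω3 : ω ≤ 1 - t * (1 + β) := (min_le_right _ _).trans (min_le_right _ _)
  set θ : ℝ := lam ^ ω with hθ
  have hθ1 : 1 < θ := Real.one_lt_rpow hl hω0
  have hθ2 : θ ≤ 2 := by
    rw [hθ, Real.rpow_def_of_pos hl0]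
    rw [le_div_iff₀ hloglam] at hω2
    calc Real.exp (Real.log lam * ω) ≤ Real.exp (Real.log 2) := Real.exp_le_exp.mpr (by linarith)
      _ = 2 := Real.exp_log (by norm_num)
  have hθd : θ ^ (3 * d) ≤ lam := by
    rw [hθ, ← Real.rpow_natCast, ← Real.rpow_mul hl0.le]
    have h1 : ω * ((3 * d : ℕ) : ℝ) ≤ 1 := by
      push_cast
      rw [le_div_iff₀ (by positivity)] at hω1
      exact hω1
    calc lam ^ (ω * ((3 * d : ℕ) : ℝ)) ≤ lam ^ (1 : ℝ) :=
          Real.rpow_le_rpow_of_exponent_le hl.le h1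
      _ = lam := Real.rpow_one lam
  obtain ⟨B, Ca, e, Cs, W, ε, K₁, R₀, Y, K⟩ := k0_exists jc.br jc.nh jc.pa jc.bi hd C₁ lam θ hC1 hl
    hθ1 hθ2 hθd
  set m : ℝ := (((d - 1 : ℕ) : ℝ))⁻¹ with hm
  obtain ⟨C, e₂, s₀, hC, he₂, hs₀, hs₀1, H2⟩ := main_local jc.jb K h one_pos hm
  obtain ⟨N₀, hN₀, HN⟩ := KK_le_SS
  have hB1 : 1 ≤ B := K.pc.Ca1.trans K.pc.CaB
  have hB0 : 0 < B := by linarith
  have hC₁0 : 0 < C₁ := by linarith
  set ε₁ : ℝ := 1 / (2 * Kd d) with hε₁def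
  have hε₁ : 0 < ε₁ := by positivity
  set q : ℝ := 1 / (1 + β) with hq
  have hβ1 : 0 < 1 + β := by linarith
  have hq0 : 0 < q := by positivity
  set F : ℝ := C₂ * B * (2 * C₁ * lam) ^ ω with hF
  have hF0 : 0 < F := by positivity
  set Fq : ℝ := F ^ q with hFq
  have hFq0 : 0 < Fq := by positivity
  set E : ℝ := 2 / ((d : ℝ) - 1) with hE
  have hE0 : 0 < E := by positivity
  have hEm : 2 * m = E := by
    rw [hm, hE, Nat.cast_sub (by omega), Nat.cast_one]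
    field_simp
  refine ⟨N₀ * C * (Fq * (1 / ε₁) ^ t) ^ E, ε₁ * s₀, by positivity, by positivity, ?_⟩
  intro r hr0 hrs b hb
  set s : ℝ := r / ε₁ with hs
  have hs0 : 0 < s := by positivity
  have hss : s ≤ s₀ := by
    rw [hs, div_le_iff₀ hε₁]
    linarith
  have hs1 : s ≤ 1 := hss.trans hs₀1
  obtain ⟨k, hk1, hk2, hk3, hk4, hk5, hk6⟩ := K.ft.base c₀ h s hs0 hs1
  have hS := H2 c₀ h (by rw [sub_self, norm_zero]; exact he₂.le) s hs0 hss k hk1 hk4 hk5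
  set Q := Pd d c₀ k with hQ
  have hQ0 : 0 < Q := h.Pd_pos k
  have hb2 : Kd d * ‖b - ee d c₀‖ ≤ s / 2 := by
    calc Kd d * ‖b - ee d c₀‖ ≤ Kd d * r := by gcongr
      _ = s / 2 := by
          rw [hs, hε₁def]
          field_simp
  have hvol := HN d c₀ (s / 2) (1 / Q) b (by positivity) hb2
  have hk4' : volume (KK d b) ≤ ENNReal.ofReal (N₀ * (C * (1 / Q) ^ E)) := by
    refine hvol.trans ?_
    rw [← ofReal_sS, ← ENNReal.ofReal_mul hN₀.le]
    apply ENNReal.ofReal_le_ofReal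
    rw [← hEm]
    gcongr
  -- bound of `θ ^ k`
  have h1 : θ ^ k ≤ (2 * C₁ * lam) ^ ω * s ^ (-ω) := by
    have h2 : θ ^ k = (lam ^ k) ^ ω := by
      rw [hθ, ← Real.rpow_natCast, ← Real.rpow_natCast, ← Real.rpow_mul hl0.le,
        ← Real.rpow_mul hl0.le, mul_comm]
    have h3 : lam ^ k ≤ 2 * C₁ * lam / s := by rwa [le_div_iff₀ hs0]
    rw [h2]
    calc (lam ^ k) ^ ω ≤ (2 * C₁ * lam / s) ^ ω := Real.rpow_le_rpow (by positivity) h3 hω0.le
      _ = _ := by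
          rw [Real.div_rpow (by positivity) hs0.le, Real.rpow_neg hs0.le]
          rfl
  -- bound of `Q`
  have h2 : 1 ≤ F * s ^ (1 - ω) * Q ^ (1 + β) := by
    have h3 := hrec k
    have hPβ : 0 < Q ^ β := Real.rpow_pos_of_pos hQ0 β
    calc 1 ≤ C₂ * (‖zz d c₀ k‖ * Q ^ β) := h3
      _ ≤ C₂ * ((B * θ ^ k * s * Q) * Q ^ β) := by gcongr
      _ ≤ C₂ * ((B * ((2 * C₁ * lam) ^ ω * s ^ (-ω)) * s * Q) * Q ^ β) := by gcongr
      _ = F * (s ^ (-ω) * s) * (Q * Q ^ β) := by rw [hF]; ring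
      _ = _ := by
          rw [Real.rpow_add hQ0, Real.rpow_one, sub_eq_add_neg, Real.rpow_add hs0, Real.rpow_one]
          ring
  have h3 : 1 / Q ≤ Fq * s ^ t := by
    have h4 : (1 / Q : ℝ) = (1 / Q ^ (1 + β)) ^ q := by
      rw [Real.div_rpow zero_le_one (by positivity), Real.one_rpow, ← Real.rpow_mul hQ0.le, hq,
        mul_div_cancel₀ _ hβ1.ne', Real.rpow_one]
    have h5 : (1 / Q : ℝ) ≤ (F * s ^ (1 - ω)) ^ q := by
      rw [h4]
      apply Real.rpow_le_rpow (by positivity) _ hq0.le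
      rw [div_le_iff₀ (by positivity)]
      exact h2
    have h6 : (s ^ (1 - ω)) ^ q ≤ s ^ t := by
      rw [← Real.rpow_mul hs0.le]
      apply Real.rpow_le_rpow_of_exponent_ge hs0 hs1
      rw [hq, mul_one_div, le_div_iff₀ hβ1]
      linarith
    calc (1 / Q : ℝ) ≤ (F * s ^ (1 - ω)) ^ q := h5
      _ = F ^ q * (s ^ (1 - ω)) ^ q := Real.mul_rpow hF0.le (by positivity)
      _ ≤ _ := by gcongr
  refine hk4'.trans ?_
  apply ENNReal.ofReal_le_ofReal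
  calc N₀ * (C * (1 / Q) ^ E) ≤ N₀ * (C * (Fq * s ^ t) ^ E) := by gcongr
    _ = N₀ * (C * ((Fq * (1 / ε₁) ^ t) * r ^ t) ^ E) := by
        congr 3
        rw [hs, div_eq_mul_one_div, Real.mul_rpow hr0.le (by positivity)]
        ring
    _ = N₀ * C * (Fq * (1 / ε₁) ^ t) ^ E * (r ^ t) ^ E := by
        rw [Real.mul_rpow (by positivity) (by positivity)]
        ring
    _ = _ := by rw [← Real.rpow_mul hr0.le]

/-- The bound of the area of the filled Julia sets with the exponent `E`. -/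
def AJ (d : ℕ) (c₀ : ℂ) (E : ℝ) : Prop :=
  ∃ C ε : ℝ, 0 < C ∧ 0 < ε ∧ ∀ r : ℝ, 0 < r → r ≤ ε → ∀ b : Fin (d + 1) → ℂ,
    ‖b - ee d c₀‖ ≤ r → volume (KK d b) ≤ ENNReal.ofReal (C * r ^ E)

theorem aj_rec (h : CEp d C₁ lam c₀) (hrec : Rec d C₂ β c₀) (hβ : 0 ≤ β) {E : ℝ}
    (hE0 : 0 ≤ E) (hE : E * (1 + β) < 2 / ((d : ℝ) - 1)) : AJ d c₀ E := by
  have hd := h.hd
  have hdR : (2 : ℝ) ≤ d := by exact_mod_cast hd
  have hd1 : 0 < (d : ℝ) - 1 := by linarith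
  set E₀ : ℝ := 2 / ((d : ℝ) - 1) with hE₀
  have hE₀0 : 0 < E₀ := by positivity
  have hC₂ : 0 < C₂ := by
    have h1 := hrec 0
    by_contra hcon
    rw [not_lt] at hcon
    have h2 : 0 ≤ ‖zz d c₀ 0‖ * Pd d c₀ 0 ^ β :=
      mul_nonneg (norm_nonneg _) (Real.rpow_nonneg (h.Pd_pos 0).le _)
    have h3 := mul_nonpos_of_nonpos_of_nonneg hcon h2
    linarith
  have ht0 : 0 ≤ E / E₀ := by positivity
  have ht1 : E / E₀ * (1 + β) < 1 := by
    rw [div_mul_eq_mul_div, div_lt_one hE₀0]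
    exact hE
  obtain ⟨C, ε, hC, hε, H⟩ := area_KK h hrec hC₂ hβ ht0 ht1
  refine ⟨C, ε, hC, hε, ?_⟩
  intro r hr hrε b hb
  have h2 := H r hr hrε b hb
  have h3 : E / E₀ * (2 / ((d : ℝ) - 1)) = E := by
    rw [← hE₀]
    field_simp
  rwa [h3] at h2

theorem aj_ce (h : CEp d C₁ lam c₀) {E : ℝ} (hE0 : 0 ≤ E)
    (hE : E * (d - Real.log lam / Real.log (2 * d)) < 2) : AJ d c₀ E := by
  have hd := h.hd
  have hdR : (2 : ℝ) ≤ d := by exact_mod_cast hd
  have hd1 : 0 < (d : ℝ) - 1 := by linarith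
  have hlog : 0 < Real.log (2 * d) := Real.log_pos (by linarith)
  have hle : Real.log lam ≤ Real.log (2 * d) :=
    Real.log_le_log (by linarith [h.lam1]) h.lam_le
  have hq1 : Real.log lam / Real.log (2 * d) ≤ 1 := by
    rw [div_le_one hlog]
    exact hle
  refine aj_rec h h.recB (div_nonneg (by linarith) hd1.le) hE0 ?_
  set q := Real.log lam / Real.log (2 * d) with hq
  rw [lt_div_iff₀ hd1]
  have h2 : E * (1 + (1 - q) / ((d : ℝ) - 1)) * ((d : ℝ) - 1) = E * (d - q) := by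
    field_simp
    ring
  rw [h2]
  exact hE

theorem aj_lyap (hd : 2 ≤ d) {χ : ℝ} (h : Lyap d χ c₀) {E : ℝ}
    (hE0 : 0 ≤ E) (hE : E < 2 / ((d : ℝ) - 1)) : AJ d c₀ E := by
  have hdR : (2 : ℝ) ≤ d := by exact_mod_cast hd
  have hd1 : 0 < (d : ℝ) - 1 := by linarith
  set E₀ : ℝ := 2 / ((d : ℝ) - 1) with hE₀
  have hE₀0 : 0 < E₀ := by positivity
  obtain ⟨⟨C₁, lam, hce⟩, -⟩ := Pool.Agent.Y674.CA.lya d χ c₀ hd h
  set β : ℝ := (1 - E / E₀) / 2 with hβ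
  have ht1 : E / E₀ < 1 := by
    rw [div_lt_one hE₀0]
    exact hE
  have hβ0 : 0 < β := by
    rw [hβ]
    linarith
  obtain ⟨C₂, hC₂, hrec⟩ := rec_of_lya Pool.Agent.Y674.CA.lya hd h hβ0
  refine aj_rec hce hrec hβ0.le hE0 ?_
  have h1 : E / E₀ * (1 + β) < 1 := by
    have : 0 ≤ E / E₀ := by positivity
    rw [hβ]
    nlinarith
  rw [div_mul_eq_mul_div, div_lt_one hE₀0] at h1
  exact h1

end Pool.Agent.Y272.GA
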