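import Mathlib
import Pool.Agent.Y272.GA.Jul
import Pool.Agent.Y272.GA.Frt2

/-!
# The filled Julia sets of all polynomials near a Collet-Eckmann unicritical one: front end
-/

set_option autoImplicit false

open Set Filter Metric MeasureTheory Topology Polynomial

namespace Pool.Agent.Y272.GA

open Pool.Agent.Y298.CA (Lyap lim_of ev_const)

variable {d : ℕ} {c₀ : ℂ}

/-- the filled Julia set -/
def FJ (T : ℂ[X]) : Set ℂ :=
  {z : ℂ | ¬ Tendsto (fun k : ℕ => ‖(fun z : ℂ => T.eval z)^[k] z‖) atTop atTop}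

theorem isClosed_KK (b : Fin (d + 1) → ℂ) : IsClosed (KK d b) := by
  have h1 : KK d b = ⋂ n : ℕ, {z : ℂ | ‖(FF d b)^[n] z‖ ≤ 2} := by
    ext z
    rw [mem_iInter]
    exact Iff.rfl
  rw [h1]
  exact isClosed_iInter fun n => isClosed_le (differentiable_FFn b n).continuous.norm
    continuous_const

theorem FJ_eq (hd : 2 ≤ d) (hc : ‖c₀‖ < 2) {b : Fin (d + 1) → ℂ}
    (hb : ‖b - ee d c₀‖ * (8 * ((d : ℝ) + 1)) ≤ 2 - ‖c₀‖) : FJ (pol d b) = KK d b := by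
  have h1 : (fun z : ℂ => (pol d b).eval z) = FF d b := funext (pol_eval b)
  unfold FJ KK
  rw [h1]
  ext z
  rw [Set.mem_ofPred_eq, Set.mem_ofPred_eq]
  constructor
  · intro h n
    by_contra hcon
    exact h (esc hd hc hb (not_le.mp hcon))
  · intro h hT
    obtain ⟨n, hn⟩ := (hT.eventually_gt_atTop 2).exists
    exact absurd (h n) (not_le.mpr hn)

/-- **The area of the filled Julia sets.** -/
theorem st_fill (hd : 2 ≤ d) (hc : ‖c₀‖ < 2) {E : ℝ} (hA : AJ d c₀ E) :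
    ∃ K r₀ : ℝ, 0 < K ∧ 0 < r₀ ∧ ∀ r : ℝ, 0 < r → r ≤ r₀ → ∀ T : ℂ[X], T.natDegree ≤ d →
      (∀ i : ℕ, ‖T.coeff i - (X ^ d + C c₀ : ℂ[X]).coeff i‖ ≤ r) →
        IsClosed (FJ T) ∧ volume (FJ T) ≤ ENNReal.ofReal (K * r ^ E) := by
  obtain ⟨K, r₀, hK, hr₀, H⟩ := hA
  have h2c : 0 < 2 - ‖c₀‖ := by linarith
  refine ⟨K, min r₀ ((2 - ‖c₀‖) / (8 * ((d : ℝ) + 1))), hK, lt_min hr₀ (by positivity), ?_⟩
  intro r hr hrr T hT hcl
  have hb := norm_bb hr.le hcl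
  have h1 : FJ T = KK d (bb d T) := by
    conv_lhs => rw [← pol_bb hT]
    apply FJ_eq hd hc
    have h2 : r ≤ (2 - ‖c₀‖) / (8 * ((d : ℝ) + 1)) := hrr.trans (min_le_right _ _)
    rw [le_div_iff₀ (by positivity)] at h2
    refine le_trans ?_ h2
    gcongr
  rw [h1]
  exact ⟨isClosed_KK _, H r hr (hrr.trans (min_le_left _ _)) _ hb⟩

/-- the degree of the polynomials near `z ^ d + c₀` -/
theorem two_le_deg (hd : 2 ≤ d) {T : ℂ[X]} {r : ℝ} (hr : r < 1)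
    (h : ‖T.coeff d - (X ^ d + C c₀ : ℂ[X]).coeff d‖ ≤ r) : 2 ≤ T.natDegree := by
  refine hd.trans (le_natDegree_of_ne_zero ?_)
  intro h0
  have h3 : (C c₀ : ℂ[X]).coeff d = 0 := by
    rw [coeff_C, if_neg (by omega)]
  rw [h0, coeff_add, coeff_X_pow, if_pos rfl, h3, add_zero, zero_sub, norm_neg, norm_one] at h
  linarith

/-- **Translation families.** -/
theorem st_jarea (hZ : S_ZERO) (hd : 2 ≤ d) (hc : ‖c₀‖ < 2) {E : ℝ} (hA : AR d c₀ E) :
    ∃ K r₀ : ℝ, 0 < K ∧ 0 < r₀ ∧ ∀ r : ℝ, 0 < r → r ≤ r₀ → ∀ T : ℂ[X], T.natDegree ≤ d →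
      (∀ i : ℕ, ‖T.coeff i - (X ^ d + C c₀ : ℂ[X]).coeff i‖ ≤ r) →
        volume {t : ℂ | ‖t‖ ≤ r ∧ volume (FJ (T + C t)) ≠ 0} ≤ ENNReal.ofReal (K * r ^ E) := by
  obtain ⟨K, r₀, hK, hr₀, H⟩ := st_area hd hc hA
  refine ⟨K, min r₀ (1 / 2), hK, lt_min hr₀ (by norm_num), ?_⟩
  intro r hr hrr T hT hcl
  refine le_trans (measure_mono ?_) (H r hr (hrr.trans (min_le_left _ _)) T hT hcl)
  rintro t ⟨ht, hne⟩
  refine ⟨ht, fun hSL => hne (hZ _ ?_ hSL)⟩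
  refine two_le_deg (c₀ := c₀) hd (r := r) ?_ ?_
  · have := hrr.trans (min_le_right _ _)
    linarith
  · have h4 : (C t : ℂ[X]).coeff d = 0 := by
      rw [coeff_C, if_neg (by omega)]
    rw [coeff_add, h4, add_zero]
    exact hcl d

/-- **The volume in the space of coefficients.** -/
theorem st_jvol (hZ : S_ZERO) (hd : 2 ≤ d) (hc : ‖c₀‖ < 2) {E : ℝ} (hA : AR d c₀ (2 + E)) :
    ∃ K r₀ : ℝ, 0 < K ∧ 0 < r₀ ∧ ∀ r : ℝ, 0 < r → r ≤ r₀ →
      volume {a | a ∈ Bx d c₀ r ∧ volume (FJ (∑ i : Fin (d + 1), C (a i) * X ^ (i : ℕ))) ≠ 0} ≤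
        ENNReal.ofReal (K * r ^ E) * volume (Bx d c₀ r) := by
  obtain ⟨K, r₀, hK, hr₀, H⟩ := st_vol hd hc hA
  refine ⟨K, min r₀ (1 / 2), hK, lt_min hr₀ (by norm_num), ?_⟩
  intro r hr hrr
  refine le_trans (measure_mono ?_) (H r hr (hrr.trans (min_le_left _ _)))
  rintro a ⟨ha, hne⟩
  refine ⟨ha, fun hSL => hne (hZ _ ?_ hSL)⟩
  refine two_le_deg (c₀ := c₀) hd (r := r) ?_ ?_
  · have := hrr.trans (min_le_right _ _)
    linarith
  · have h5 := ha (Fin.last d)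
    have h6 : (∑ i : Fin (d + 1), C (a i) * X ^ (i : ℕ) : ℂ[X]).coeff d = a (Fin.last d) := by
      rw [Polynomial.finset_sum_coeff, Finset.sum_eq_single (Fin.last d)]
      · rw [coeff_C_mul, coeff_X_pow, if_pos (by simp), mul_one]
      · intro i _ hi
        have h1 : d ≠ (i : ℕ) := by
          intro h
          apply hi
          exact Fin.ext (by simpa using h.symm)
        rw [coeff_C_mul, coeff_X_pow, if_neg h1, mul_zero]
      · intro h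
        exact absurd (Finset.mem_univ _) h
    rw [h6]
    simpa using h5

/-- the polynomials near `z ^ d + c₀` -/
def Nr (d : ℕ) (c₀ : ℂ) (r : ℝ) : Set ℂ[X] :=
  {T | T.natDegree ≤ d ∧ ∀ i : ℕ, ‖T.coeff i - (X ^ d + C c₀ : ℂ[X]).coeff i‖ ≤ r}

/-- **The sharp exponent.** -/
theorem st_jopt (hO : S_OPT) (hd : 2 ≤ d) {χ : ℝ} (h : Lyap d χ c₀) (hc : ‖c₀‖ < 2) :
    Tendsto (fun r : ℝ => Real.log (⨆ T ∈ Nr d c₀ r, volume (FJ T)).toReal / Real.log r)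
      (𝓝[>] 0) (𝓝 (2 / ((d : ℝ) - 1))) := by
  have hdR : (2 : ℝ) ≤ d := by exact_mod_cast hd
  have hd1 : 0 < (d : ℝ) - 1 := by linarith
  set E₀ : ℝ := 2 / ((d : ℝ) - 1) with hE₀
  have hE₀0 : 0 < E₀ := by positivity
  have hmem0 : ∀ᶠ r : ℝ in 𝓝[>] 0, 0 < r := self_mem_nhdsWithin
  have hlt1 : ∀ᶠ r : ℝ in 𝓝[>] 0, r < 1 :=
    mem_nhdsWithin_of_mem_nhds (gt_mem_nhds (by norm_num : (0 : ℝ) < 1))
  -- the upper bound
  have hup : ∀ ε : ℝ, 0 < ε → ∀ᶠ r : ℝ in 𝓝[>] 0,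
      (⨆ T ∈ Nr d c₀ r, volume (FJ T)) ≤ ENNReal.ofReal (r ^ (E₀ - ε)) := by
    intro ε hε
    set E : ℝ := max 0 (E₀ - ε / 2) with hE
    have hE1 : E < E₀ := max_lt hE₀0 (by linarith)
    have hE2 : E₀ - ε / 2 ≤ E := le_max_right _ _
    obtain ⟨K, r₀, hK, hr₀, H⟩ := st_fill hd hc (aj_lyap hd h (le_max_left _ _) hE1)
    have h1 : ∀ᶠ r : ℝ in 𝓝[>] 0, r < r₀ := mem_nhdsWithin_of_mem_nhds (gt_mem_nhds hr₀)
    filter_upwards [hmem0, hlt1, h1, ev_const (C := K) (by positivity : 0 < ε / 2)]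
      with r hr0 hr1 hr2 hr3
    refine iSup₂_le fun T hT => ((H r hr0 hr2.le T hT.1 hT.2).2).trans ?_
    apply ENNReal.ofReal_le_ofReal
    calc K * r ^ E ≤ K * r ^ (E₀ - ε / 2) := by
          gcongr K * ?_
          exact Real.rpow_le_rpow_of_exponent_ge hr0 hr1.le hE2
      _ = (K * r ^ (ε / 2)) * r ^ (E₀ - ε) := by
          rw [mul_assoc, ← Real.rpow_add hr0]
          congr 2
          ring
      _ ≤ 1 * r ^ (E₀ - ε) := by gcongr
      _ = _ := one_mul _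
  refine lim_of ?_ ?_
  · intro ε hε
    filter_upwards [hmem0, hup 1 one_pos, hO d χ c₀ hd h ε hε] with r hr0 hr1 ⟨c, hc1, hc2⟩
    have hfin : (⨆ T ∈ Nr d c₀ r, volume (FJ T)) ≠ ⊤ := ne_top_of_le_ne_top ENNReal.ofReal_ne_top hr1
    have hT : (X ^ d + C c : ℂ[X]) ∈ Nr d c₀ r := by
      refine ⟨?_, ?_⟩
      · exact natDegree_add_le_of_degree_le (natDegree_X_pow_le d) (by rw [natDegree_C]; omega)
      · intro i
        rw [coeff_add, coeff_add, add_sub_add_left_eq_sub, ← coeff_sub, ← C_sub, coeff_C]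
        split_ifs
        · rw [mem_ball, dist_eq_norm] at hc1
          exact hc1.le
        · rw [norm_zero]
          exact hr0.le
    have h2 : volume (FJ (X ^ d + C c : ℂ[X])) ≤ ⨆ T ∈ Nr d c₀ r, volume (FJ T) :=
      le_iSup₂ (f := fun (T : ℂ[X]) (_ : T ∈ Nr d c₀ r) => volume (FJ T)) _ hT
    have h3 : FJ (X ^ d + C c : ℂ[X]) =
        {z : ℂ | ¬ Tendsto (fun k : ℕ => ‖(fun z : ℂ => z ^ d + c)^[k] z‖) atTop atTop} := by
      have h4 : (fun z : ℂ => (X ^ d + C c : ℂ[X]).eval z) = fun z => z ^ d + c := by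
        funext z
        simp
      unfold FJ
      rw [h4]
    rw [← h3] at hc2
    have h5 := ENNReal.toReal_mono hfin (hc2.trans h2)
    rwa [ENNReal.toReal_ofReal (by positivity)] at h5
  · intro ε hε
    filter_upwards [hmem0, hup ε hε] with r hr0 hr1
    have h5 := ENNReal.toReal_mono ENNReal.ofReal_ne_top hr1
    rwa [ENNReal.toReal_ofReal (by positivity)] at h5

/-- the filled Julia sets of the polynomials near `z ^ d + c₀` are closed -/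
theorem closed_near (hd : 2 ≤ d) (hc : ‖c₀‖ < 2) :
    ∃ r₁ : ℝ, 0 < r₁ ∧ ∀ T ∈ Nr d c₀ r₁, IsClosed (FJ T) := by
  have h2c : 0 < 2 - ‖c₀‖ := by linarith
  have hr₁ : 0 < (2 - ‖c₀‖) / (8 * ((d : ℝ) + 1)) := by positivity
  refine ⟨(2 - ‖c₀‖) / (8 * ((d : ℝ) + 1)), hr₁, ?_⟩
  intro T hT
  have hb := norm_bb hr₁.le hT.2
  have h1 : FJ T = KK d (bb d T) := by
    conv_lhs => rw [← pol_bb hT.1]
    apply FJ_eq hd hc
    rwa [le_div_iff₀ (by positivity)] at hb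
  rw [h1]
  exact isClosed_KK _

theorem nr_mono {r r' : ℝ} (h : r ≤ r') : Nr d c₀ r ⊆ Nr d c₀ r' :=
  fun _ hT => ⟨hT.1, fun i => (hT.2 i).trans h⟩

theorem nr_add {T : ℂ[X]} {r : ℝ} (hT : T ∈ Nr d c₀ r) {t : ℂ} (ht : ‖t‖ ≤ r) :
    T + C t ∈ Nr d c₀ (2 * r) := by
  have hr : 0 ≤ r := (norm_nonneg t).trans ht
  refine ⟨natDegree_add_le_of_degree_le hT.1 (by rw [natDegree_C]; omega), fun i => ?_⟩
  have h1 : ‖(C t : ℂ[X]).coeff i‖ ≤ r := by
    rw [coeff_C]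
    split_ifs
    · exact ht
    · rw [norm_zero]
      exact hr
  have h2 : (T + C t).coeff i - (X ^ d + C c₀ : ℂ[X]).coeff i =
      (T.coeff i - (X ^ d + C c₀ : ℂ[X]).coeff i) + (C t : ℂ[X]).coeff i := by
    rw [coeff_add]
    ring
  rw [h2]
  calc _ ≤ ‖T.coeff i - (X ^ d + C c₀ : ℂ[X]).coeff i‖ + ‖(C t : ℂ[X]).coeff i‖ := norm_add_le _ _
    _ ≤ r + r := add_le_add (hT.2 i) h1
    _ = 2 * r := by ring

theorem nr_box {a : Fin (d + 1) → ℂ} {r : ℝ} (hr : 0 ≤ r) (ha : a ∈ Bx d c₀ r) :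
    (∑ i : Fin (d + 1), C (a i) * X ^ (i : ℕ) : ℂ[X]) ∈ Nr d c₀ r := by
  have hco : ∀ j : ℕ, (∑ i : Fin (d + 1), C (a i) * X ^ (i : ℕ) : ℂ[X]).coeff j =
      ∑ i : Fin (d + 1), if j = (i : ℕ) then a i else 0 := by
    intro j
    rw [Polynomial.finset_sum_coeff]
    refine Finset.sum_congr rfl fun i _ => ?_
    rw [coeff_C_mul, coeff_X_pow]
    split_ifs
    · rw [mul_one]
    · rw [mul_zero]
  refine ⟨?_, fun j => ?_⟩
  · refine Polynomial.natDegree_sum_le_of_forall_le _ _ fun i _ => ?_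
    have hi := i.isLt
    exact (Polynomial.natDegree_C_mul_X_pow_le _ _).trans (by omega)
  · rw [hco]
    by_cases hj : j ≤ d
    · have h1 := ha ⟨j, by omega⟩
      rw [Finset.sum_eq_single (⟨j, by omega⟩ : Fin (d + 1))]
      · rw [if_pos rfl]
        exact h1
      · intro i _ hi
        rw [if_neg]
        intro h
        apply hi
        exact Fin.ext h.symm
      · intro h
        exact absurd (Finset.mem_univ _) h
    · rw [Finset.sum_eq_zero]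
      · rw [coeff_add, coeff_X_pow, if_neg (by omega), coeff_C, if_neg (by omega)]
        simpa using hr
      · intro i _
        have hi := i.isLt
        rw [if_neg (by omega)]

end Pool.Agent.Y272.GA
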